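import Pool.Agent.Lib.MP_d57abb_nt.GA.AS.Dens

/-!
# one exceptional set for countably many conditions

`LN P` (AS/Defs): `(∑_{X ≤ N, P X} 1/X) / log N → 0`.
`diag`: for each `i` choose `N i ≥ 3` such that for all `N ≥ N i`: `∑_{X ≤ N, P i X} 1/X ≤ 2^(-i) log N`.  Let `E = {X | ∃ i, N i ≤ X ∧ P i X}`.  Let `κ > 0`, `2 · 2^(-I) ≤ κ / 2`.
For `N ≥ 3`: `∑_{X ≤ N, X ∈ E} 1/X ≤ ∑_{i : N i ≤ N} ∑_{X ≤ N, P i X} 1/X` (an `X ≤ N` in `E` has an `i` with `N i ≤ X ≤ N`; to have finitely many `i`, choose the `N i` with `i ≤ N i`, so only `i ≤ N` occur)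
`≤ ∑_{i < I} ∑_{X ≤ N, P i X} 1/X + ∑_{I ≤ i ≤ N} 2^(-i) log N ≤ o(log N) + 2 · 2^(-I) log N ≤ κ log N` for large `N`.
-/

namespace Pool.Agent.Lib.MP_d57abb_nt.GA.AS

variable [Pool.Agent.Lib.MP_d57abb_nt.GA.TA.Lab]

open Finset Filter Topology Pool.Agent.Lib.MP_d57abb_nt Pool.Agent.Lib.MP_d57abb_nt.GA.TA Pool.Agent.Lib.MP_d57abb_nt.GA.TZ

open Classical in
private noncomputable def Diag_s (P : ℕ → Prop) (N : ℕ) : ℝ := ∑ X ∈ (Icc 1 N).filter P, (1 : ℝ) / X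

private theorem Diag_s_nonneg (P : ℕ → Prop) (N : ℕ) : 0 ≤ Diag_s P N := by
  unfold Diag_s
  exact Finset.sum_nonneg fun X _ => by positivity

private theorem Diag_log {N : ℕ} (h : 3 ≤ N) : 0 < Real.log N := by
  apply Real.log_pos
  have : (3 : ℝ) ≤ N := by exact_mod_cast h
  linarith

private theorem Diag_of {P : ℕ → Prop} (h : LN P) {ε : ℝ} (hε : 0 < ε) :
    ∃ N0 : ℕ, ∀ N, N0 ≤ N → Diag_s P N ≤ ε * Real.log N := by
  have h1 : Tendsto (fun N : ℕ => Diag_s P N / Real.log N) atTop (𝓝 0) := h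
  obtain ⟨N0, hN0⟩ := Metric.tendsto_atTop.1 h1 ε hε
  refine ⟨max N0 3, fun N hN => ?_⟩
  have h2 := hN0 N ((le_max_left _ _).trans hN)
  have h3 := Diag_log ((le_max_right _ _).trans hN)
  rw [Real.dist_0_eq_abs] at h2
  have h4 := (le_abs_self _).trans h2.le
  rwa [div_le_iff₀ h3] at h4

private theorem Diag_to {P : ℕ → Prop} (h : ∀ ε : ℝ, 0 < ε → ∃ N0 : ℕ, ∀ N, N0 ≤ N →
    Diag_s P N ≤ ε * Real.log N) : LN P := by
  have h1 : Tendsto (fun N : ℕ => Diag_s P N / Real.log N) atTop (𝓝 0) := by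
    rw [Metric.tendsto_atTop]
    intro ε hε
    obtain ⟨N0, hN0⟩ := h (ε / 2) (by linarith)
    refine ⟨max N0 3, fun N hN => ?_⟩
    have h2 := hN0 N ((le_max_left _ _).trans hN)
    have h3 := Diag_log ((le_max_right _ _).trans hN)
    rw [Real.dist_0_eq_abs, abs_of_nonneg (div_nonneg (Diag_s_nonneg P N) h3.le)]
    have h4 : Diag_s P N / Real.log N ≤ ε / 2 := by rwa [div_le_iff₀ h3]
    linarith
  exact h1

private theorem Diag_cover (P : ℕ → ℕ → Prop) (M : ℕ → ℕ) (hM : ∀ i, i ≤ M i) (N : ℕ) :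
    Diag_s (fun X => ∃ i, M i ≤ X ∧ P i X) N ≤
      ∑ i ∈ (range (N + 1)).filter (fun i => M i ≤ N), Diag_s (P i) N := by
  classical
  have h1 : ∑ i ∈ (range (N + 1)).filter (fun i => M i ≤ N), Diag_s (P i) N =
      ∑ X ∈ Icc 1 N, ∑ i ∈ (range (N + 1)).filter (fun i => M i ≤ N),
        (if P i X then (1 : ℝ) / X else 0) := by
    rw [Finset.sum_comm]
    refine Finset.sum_congr rfl fun i _ => ?_
    unfold Diag_s
    rw [Finset.sum_filter]
  rw [h1]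
  unfold Diag_s
  rw [Finset.sum_filter]
  refine Finset.sum_le_sum fun X hX => ?_
  have hX2 := (Finset.mem_Icc.1 hX).2
  have hnn : ∀ i ∈ (range (N + 1)).filter (fun i => M i ≤ N), (0 : ℝ) ≤ (if P i X then (1 : ℝ) / X else 0) := by
    intro i _
    split_ifs
    · positivity
    · exact le_refl _
  by_cases h2 : ∃ i, M i ≤ X ∧ P i X
  · rw [if_pos h2]
    obtain ⟨i, hi1, hi2⟩ := h2
    have hi : i ∈ (range (N + 1)).filter (fun i => M i ≤ N) := by
      refine Finset.mem_filter.2 ⟨Finset.mem_range.2 ?_, hi1.trans hX2⟩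
      have := hM i
      omega
    have h3 := Finset.single_le_sum hnn hi
    rw [if_pos hi2] at h3
    exact h3
  · rw [if_neg h2]
    exact Finset.sum_nonneg hnn

private theorem Diag_geo (J : Finset ℕ) (I n : ℕ) (hJ : ∀ i ∈ J, i < n) {c : ℝ} (hc : 0 ≤ c) :
    ∑ i ∈ J, (if i < I then c else (1 / 2 : ℝ) ^ i) ≤ I * c + 2 * (1 / 2 : ℝ) ^ I := by
  rw [← Finset.sum_filter_add_sum_filter_not J (fun i => i < I)]
  refine add_le_add ?_ ?_
  · have h1 : ∑ i ∈ J.filter (fun i => i < I), (if i < I then c else (1 / 2 : ℝ) ^ i) =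
        ∑ i ∈ J.filter (fun i => i < I), c :=
      Finset.sum_congr rfl fun i hi => if_pos (Finset.mem_filter.1 hi).2
    rw [h1, Finset.sum_const, nsmul_eq_mul]
    refine mul_le_mul_of_nonneg_right ?_ hc
    have h2 : (J.filter (fun i => i < I)).card ≤ (range I).card :=
      Finset.card_le_card fun i hi => Finset.mem_range.2 (Finset.mem_filter.1 hi).2
    rw [Finset.card_range] at h2
    exact_mod_cast h2
  · have h1 : ∑ i ∈ J.filter (fun i => ¬ i < I), (if i < I then c else (1 / 2 : ℝ) ^ i) =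
        ∑ i ∈ J.filter (fun i => ¬ i < I), (1 / 2 : ℝ) ^ i :=
      Finset.sum_congr rfl fun i hi => if_neg (Finset.mem_filter.1 hi).2
    rw [h1]
    have h2 : ∑ i ∈ J.filter (fun i => ¬ i < I), (1 / 2 : ℝ) ^ i ≤ ∑ i ∈ Ico I n, (1 / 2 : ℝ) ^ i := by
      refine Finset.sum_le_sum_of_subset_of_nonneg ?_ (fun i _ _ => by positivity)
      intro i hi
      obtain ⟨h3, h4⟩ := Finset.mem_filter.1 hi
      exact Finset.mem_Ico.2 ⟨not_lt.1 h4, hJ i h3⟩
    refine h2.trans ?_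
    rw [Finset.sum_Ico_eq_sum_range]
    have h5 : ∑ k ∈ range (n - I), (1 / 2 : ℝ) ^ (I + k) = (1 / 2 : ℝ) ^ I * ∑ k ∈ range (n - I), (1 / 2 : ℝ) ^ k := by
      rw [Finset.mul_sum]
      exact Finset.sum_congr rfl fun k _ => pow_add _ _ _
    rw [h5, mul_comm 2]
    exact mul_le_mul_of_nonneg_left (sum_geometric_two_le _) (by positivity)

theorem diag (P : ℕ → ℕ → Prop) (h : ∀ i, LN (P i)) :
    ∃ E : Set ℕ, LN (fun X => X ∈ E) ∧ ∀ i, ∃ N : ℕ, ∀ X, N ≤ X → P i X → X ∈ E := by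
  have h1 : ∀ i : ℕ, ∃ N0 : ℕ, ∀ N, N0 ≤ N → Diag_s (P i) N ≤ (1 / 2 : ℝ) ^ i * Real.log N :=
    fun i => Diag_of (h i) (by positivity)
  choose M0 hM0 using h1
  have hMi : ∀ i, i ≤ max (M0 i) i := fun i => le_max_right _ _
  refine ⟨{X | ∃ i, max (M0 i) i ≤ X ∧ P i X}, ?_, fun i => ⟨max (M0 i) i, fun X hX hP => ⟨i, hX, hP⟩⟩⟩
  apply Diag_to
  intro ε hε
  obtain ⟨I, hI⟩ := exists_pow_lt_of_lt_one (show 0 < ε / 4 by linarith) (show (1 / 2 : ℝ) < 1 by norm_num)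
  have hc : 0 < ε / (2 * (I + 1)) := by positivity
  have h2 : ∀ i : ℕ, ∃ N0 : ℕ, ∀ N, N0 ≤ N → Diag_s (P i) N ≤ ε / (2 * (I + 1)) * Real.log N :=
    fun i => Diag_of (h i) hc
  choose M1 hM1 using h2
  refine ⟨max ((range I).sup M1) 3, fun N hN => ?_⟩
  have hlog := Diag_log ((le_max_right _ _).trans hN)
  refine (Diag_cover P (fun i => max (M0 i) i) hMi N).trans ?_
  have h3 : ∀ i ∈ (range (N + 1)).filter (fun i => max (M0 i) i ≤ N), Diag_s (P i) N ≤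
      (if i < I then ε / (2 * (I + 1)) else (1 / 2 : ℝ) ^ i) * Real.log N := by
    intro i hi
    by_cases hiI : i < I
    · rw [if_pos hiI]
      refine hM1 i N ?_
      exact (Finset.le_sup (f := M1) (Finset.mem_range.2 hiI)).trans ((le_max_left _ _).trans hN)
    · rw [if_neg hiI]
      exact hM0 i N ((le_max_left _ _).trans (Finset.mem_filter.1 hi).2)
  refine (Finset.sum_le_sum h3).trans ?_
  rw [← Finset.sum_mul]
  refine mul_le_mul_of_nonneg_right ?_ hlog.le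
  refine (Diag_geo _ I (N + 1) (fun i hi => Finset.mem_range.1 (Finset.mem_filter.1 hi).1) hc.le).trans ?_
  have h4 : (I : ℝ) * (ε / (2 * (I + 1))) ≤ ε / 2 := by
    rw [mul_div_assoc', div_le_div_iff₀ (by positivity) (by norm_num)]
    nlinarith
  linarith

end Pool.Agent.Lib.MP_d57abb_nt.GA.AS
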