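import Pool.Agent.Lib.MP_d57abb_nt.GA.AS.Defs

/-!
# Dilations of the weight

* `PW_dil`: for `1 ≤ t ≤ 4` the function `φ_t x = φ (x / t)` satisfies `PW φ_t (a + 2) La`.
* `SK_dil`: `SK a φ ψ z (t Y) = SK (a + 2) φ_t ψ z Y` for `Y > 0`.
-/

namespace Pool.Agent.Lib.MP_d57abb_nt.GA.AS

variable [Pool.Agent.Lib.MP_d57abb_nt.GA.TA.Lab]

open Finset Pool.Agent.Lib.MP_d57abb_nt Pool.Agent.Lib.MP_d57abb_nt.GA.TA Pool.Agent.Lib.MP_d57abb_nt.GA.TZ

private theorem Dil_La {φ : ℝ → ℝ} {a : ℕ} {La : ℝ} (hφ : PW φ a La) : 0 ≤ La := by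
  have h := hφ.lip 0 1
  have h2 : |(0 : ℝ) - 1| = 1 := by norm_num
  rw [h2, mul_one] at h
  exact (abs_nonneg _).trans h

theorem PW_dil {φ : ℝ → ℝ} {a : ℕ} {La : ℝ} (hφ : PW φ a La) {t : ℝ} (h1 : 1 ≤ t) (h4 : t ≤ 4) :
    PW (fun x => φ (x / t)) (a + 2) La := by
  have ht : 0 < t := by linarith
  have hLa := Dil_La hφ
  refine ⟨fun x => hφ.nn _, fun x => hφ.le _, fun x hx => ?_, fun x y => ?_⟩
  · obtain ⟨h2, h3⟩ := hφ.sp _ hx
    rw [le_div_iff₀ ht] at h2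
    rw [div_le_iff₀ ht] at h3
    have hp : (0 : ℝ) < 2 ^ a := by positivity
    constructor
    · have h5 : 1 / 2 ^ (a + 2) ≤ 1 / (2 : ℝ) ^ a := by
        apply one_div_le_one_div_of_le hp
        exact pow_le_pow_right₀ (by norm_num) (by omega)
      have h6 : 1 / (2 : ℝ) ^ a ≤ 1 / 2 ^ a * t := le_mul_of_one_le_right (by positivity) h1
      linarith
    · have h5 : (2 : ℝ) ^ (a + 2) = 2 ^ a * 4 := by
        rw [pow_add]
        norm_num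
      rw [h5]
      exact h3.trans (mul_le_mul_of_nonneg_left h4 hp.le)
  · refine (hφ.lip _ _).trans (mul_le_mul_of_nonneg_left ?_ hLa)
    rw [← sub_div, abs_div, abs_of_pos ht]
    exact div_le_self (abs_nonneg _) h1

theorem SK_dil {φ ψ : ℝ → ℝ} {a : ℕ} {La : ℝ} (hφ : PW φ a La) (z : ℂ) {t : ℝ} (h1 : 1 ≤ t) (h4 : t ≤ 4)
    {Y : ℝ} (hY : 0 < Y) : SK a φ ψ z (t * Y) = SK (a + 2) (fun x => φ (x / t)) ψ z Y := by
  have ht : 0 < t := by linarith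
  have hp : (0 : ℝ) < 2 ^ a := by positivity
  have h5 : (2 : ℝ) ^ (a + 2) = 2 ^ a * 4 := by
    rw [pow_add]
    norm_num
  have hle : 2 ^ a * (t * Y) ≤ 2 ^ (a + 2) * Y := by
    rw [h5, mul_assoc]
    exact mul_le_mul_of_nonneg_left (mul_le_mul_of_nonneg_right h4 hY.le) hp.le
  have hterm : ∀ k : ℕ, (k : ℝ) / (t * Y) = (k : ℝ) / Y / t := by
    intro k
    rw [div_div, mul_comm t Y]
  unfold SK
  rw [← Finset.sum_subset (Finset.Icc_subset_Icc (le_refl 1) (Nat.floor_le_floor hle))]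
  · refine Finset.sum_congr rfl fun k _ => ?_
    rw [hterm]
  · intro k hk hk2
    have h6 : ⌊2 ^ a * (t * Y)⌋₊ < k := by
      by_contra hcon
      exact hk2 (Finset.mem_Icc.2 ⟨(Finset.mem_Icc.1 hk).1, by omega⟩)
    have h7 : 2 ^ a * (t * Y) < (k : ℝ) := Nat.lt_of_floor_lt h6
    have h8 : φ ((k : ℝ) / Y / t) = 0 := by
      by_contra hne
      have h9 := (hφ.sp _ hne).2
      rw [← hterm, div_le_iff₀ (mul_pos ht hY)] at h9
      linarith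
    show ((φ ((k : ℝ) / Y / t) * tp ψ k / k : ℝ) : ℂ) * z ^ om k = 0
    rw [h8, zero_mul, zero_div, Complex.ofReal_zero, zero_mul]

end Pool.Agent.Lib.MP_d57abb_nt.GA.AS
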