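import Pool.Agent.Lib.MP_d57abb_nt.GA.AS.Defs
import Pool.Agent.Lib.MP_d57abb_nt.GA.TZ.Supp

/-!
# bounds for the sums (about 150 lines)

* `TT_le`: for `Y < 1` the sum is empty.  For `n = ⌊Y⌋₊ ≥ 1`: by `sum_div` (`F d = ψ (d / k)`) `TT ψ Y = ∑ ψ (nm x.1 / kk x.1 x.2)` over the `x ∈ pr (n + 1) 1` with `1 ≤ kk x.1 x.2 ≤ n` (group by `kk`, as in `Ts_frames`).  By `supp` a nonzero term has
  `(ll x.1)² ≤ 2^k kk ≤ 2^k n ≤ (2^k √n)²`, so `ll x.1 ≤ 2^k √n`, `2 ll x.2 ≤ 5 · 2^k ll x.1`, so `ll x.2 ≤ 5 · 4^k √n`; `card_frames_le` with `P = ⌊2^k √n⌋₊`, `Q = ⌊5 · 4^k √n⌋₊`: at most `5 · 8^k n` such `x`; `ψ ≤ 1`.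
* `norm_Sm`, `Sm_diff`: triangle inequality, `‖z ^ _‖ = 1`; `Y ≤ Y'`: the difference is the sum over `⌊Y⌋₊ < k ≤ ⌊Y'⌋₊`.
* `SK_bdd` (`Y > 0`): `φ (k / Y) ≠ 0` gives `k ≥ Y / 2^a`, so each term is `≤ tp ψ k * 2^a / Y`: total `≤ (2^a / Y) TT (2^a Y) ≤ 4^a C`.
* `SK_lip` (`0 < Y ≤ Y'`): extend both sums to `k ≤ ⌊2^a Y'⌋₊` (`φ (k / Y) = 0` for `k > 2^a Y`); `|φ (k / Y) - φ (k / Y')| ≤ La k (Y' - Y) / (Y Y')`, so the difference is `≤ La ((Y' - Y) / (Y Y')) TT (2^a Y') ≤ La 2^a C (Y' - Y) / Y`.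
  (`0 ≤ La`: `hφ.lip 0 1`.)
-/

namespace Pool.Agent.Lib.MP_d57abb_nt.GA.AS

variable [Pool.Agent.Lib.MP_d57abb_nt.GA.TA.Lab]

open Finset Pool.Agent.Lib.MP_d57abb_nt Pool.Agent.Lib.MP_d57abb_nt.GA.TA Pool.Agent.Lib.MP_d57abb_nt.GA.TZ

theorem tp_nonneg {ψ : ℝ → ℝ} {k : ℕ} {L : ℝ} (hψ : PW ψ k L) (n : ℕ) : 0 ≤ tp ψ n := by
  unfold tp
  exact Finset.sum_nonneg fun d _ => hψ.nn _

theorem TT_mono {ψ : ℝ → ℝ} {k : ℕ} {L : ℝ} (hψ : PW ψ k L) {Y Y' : ℝ} (h : Y ≤ Y') : TT ψ Y ≤ TT ψ Y' := by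
  unfold TT
  apply Finset.sum_le_sum_of_subset_of_nonneg
  · exact Finset.Icc_subset_Icc le_rfl (Nat.floor_le_floor h)
  · intro n _ _
    exact tp_nonneg hψ n

private theorem Mass_frames {ψ : ℝ → ℝ} (n : ℕ) :
    ∑ q ∈ Icc 1 n, tp ψ q =
      ∑ x ∈ (pr (n + 1) 1).filter (fun x => 1 ≤ kk x.1 x.2 ∧ kk x.1 x.2 ≤ n),
        ψ ((nm x.1 : ℝ) / (kk x.1 x.2 : ℝ)) := by
  have hmap : ∀ x ∈ (pr (n + 1) 1).filter (fun x => 1 ≤ kk x.1 x.2 ∧ kk x.1 x.2 ≤ n),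
      (kk x.1 x.2).toNat ∈ Icc 1 n := by
    intro x hx
    have h1 := (mem_filter.1 hx).2
    rw [mem_Icc]
    omega
  rw [← Finset.sum_fiberwise_of_maps_to hmap]
  refine Finset.sum_congr rfl fun q hq => ?_
  rw [mem_Icc] at hq
  have h1 : ((pr (n + 1) 1).filter (fun x => 1 ≤ kk x.1 x.2 ∧ kk x.1 x.2 ≤ n)).filter
      (fun x => (kk x.1 x.2).toNat = q) = (pr (n + 1) 1).filter (fun x => kk x.1 x.2 = q) := by
    rw [Finset.filter_filter]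
    refine Finset.filter_congr fun x _ => ?_
    constructor
    · rintro ⟨⟨h2, h3⟩, h4⟩
      omega
    · intro h2
      omega
  rw [h1]
  have h2 : ∑ x ∈ (pr (n + 1) 1).filter (fun x => kk x.1 x.2 = q), ψ ((nm x.1 : ℝ) / (kk x.1 x.2 : ℝ)) =
      ∑ x ∈ (pr (n + 1) 1).filter (fun x => kk x.1 x.2 = q), (fun m : ℤ => ψ ((m : ℝ) / q)) (nm x.1) := by
    refine Finset.sum_congr rfl fun x hx => ?_
    rw [(mem_filter.1 hx).2, Int.cast_natCast]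
  rw [h2, sum_div q (n + 1) (by omega) (fun m : ℤ => ψ ((m : ℝ) / q))]
  unfold tp
  refine Finset.sum_congr rfl fun d _ => ?_
  simp only [Int.cast_natCast]

theorem TT_le {ψ : ℝ → ℝ} {k : ℕ} {L : ℝ} (hψ : PW ψ k L) :
    ∃ C : ℝ, 0 ≤ C ∧ ∀ Y : ℝ, 0 ≤ Y → TT ψ Y ≤ C * Y := by
  refine ⟨3 * 4 ^ k, by positivity, ?_⟩
  intro Y hY
  set n : ℕ := ⌊Y⌋₊ with hn
  have hnY : (n : ℝ) ≤ Y := Nat.floor_le hY
  unfold TT
  rw [← hn, Mass_frames n]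
  set P : ℕ := Nat.sqrt (2 ^ k * n) with hP
  have hPP : P * P ≤ 2 ^ k * n := Nat.sqrt_le _
  have h1 : ∑ x ∈ (pr (n + 1) 1).filter (fun x => 1 ≤ kk x.1 x.2 ∧ kk x.1 x.2 ≤ n),
      ψ ((nm x.1 : ℝ) / (kk x.1 x.2 : ℝ)) ≤
      ∑ x ∈ (pr (n + 1) 1).filter (fun x => ll x.1 ≤ (P : ℕ) ∧ ll x.2 ≤ ((3 * 2 ^ k * P : ℕ) : ℤ)), (1 : ℝ) := by
    have h2 : ∑ x ∈ (pr (n + 1) 1).filter (fun x => 1 ≤ kk x.1 x.2 ∧ kk x.1 x.2 ≤ n),
        ψ ((nm x.1 : ℝ) / (kk x.1 x.2 : ℝ)) =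
        ∑ x ∈ ((pr (n + 1) 1).filter (fun x => 1 ≤ kk x.1 x.2 ∧ kk x.1 x.2 ≤ n)).filter
          (fun x => ll x.1 ≤ (P : ℕ) ∧ ll x.2 ≤ ((3 * 2 ^ k * P : ℕ) : ℤ)),
        ψ ((nm x.1 : ℝ) / (kk x.1 x.2 : ℝ)) := by
      symm
      apply Finset.sum_filter_of_ne
      intro x hx hne
      obtain ⟨h3, h4, h5⟩ := mem_filter.1 hx
      obtain ⟨h6, h7, h8, -⟩ := mem_pr1.1 h3
      obtain ⟨h9, h10, -, h12⟩ := supp hψ h6 h7 h8 hne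
      have hl : 0 < ll x.1 := h6.ll_pos
      have h13 : ll x.1 ≤ (P : ℕ) := by
        have h14 : (ll x.1).toNat * (ll x.1).toNat ≤ 2 ^ k * n := by
          have h15 : (((ll x.1).toNat * (ll x.1).toNat : ℕ) : ℤ) ≤ ((2 ^ k * n : ℕ) : ℤ) := by
            push_cast
            rw [Int.toNat_of_nonneg hl.le]
            have h16 : (2 : ℤ) ^ k * kk x.1 x.2 ≤ 2 ^ k * n :=
              mul_le_mul_of_nonneg_left h5 (by positivity)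
            nlinarith
          exact_mod_cast h15
        have h17 : (ll x.1).toNat ≤ P := Nat.le_sqrt.2 h14
        omega
      refine ⟨h13, ?_⟩
      push_cast
      have hk1 : (0 : ℤ) < 2 ^ k := by positivity
      have h18 : (2 : ℤ) ^ k * ll x.1 ≤ 2 ^ k * P := mul_le_mul_of_nonneg_left h13 hk1.le
      have h19 : (0 : ℤ) ≤ 2 ^ k * P := by positivity
      nlinarith
    rw [h2]
    calc ∑ x ∈ ((pr (n + 1) 1).filter (fun x => 1 ≤ kk x.1 x.2 ∧ kk x.1 x.2 ≤ n)).filter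
          (fun x => ll x.1 ≤ (P : ℕ) ∧ ll x.2 ≤ ((3 * 2 ^ k * P : ℕ) : ℤ)),
        ψ ((nm x.1 : ℝ) / (kk x.1 x.2 : ℝ)) ≤
        ∑ x ∈ ((pr (n + 1) 1).filter (fun x => 1 ≤ kk x.1 x.2 ∧ kk x.1 x.2 ≤ n)).filter
          (fun x => ll x.1 ≤ (P : ℕ) ∧ ll x.2 ≤ ((3 * 2 ^ k * P : ℕ) : ℤ)), (1 : ℝ) :=
          Finset.sum_le_sum fun x _ => hψ.le _
      _ ≤ _ := by
        apply Finset.sum_le_sum_of_subset_of_nonneg
        · intro x hx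
          rw [mem_filter, mem_filter] at hx
          rw [mem_filter]
          exact ⟨hx.1.1, hx.2⟩
        · intro x _ _
          exact zero_le_one
  refine h1.trans ?_
  rw [Finset.sum_const, nsmul_eq_mul, mul_one]
  have h3 := card_frames_le (n + 1) P (3 * 2 ^ k * P)
  have h4 : ((pr (n + 1) 1).filter (fun x => ll x.1 ≤ (P : ℕ) ∧ ll x.2 ≤ ((3 * 2 ^ k * P : ℕ) : ℤ))).card ≤
      3 * 4 ^ k * n := by
    refine h3.trans ?_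
    have h5 : (4 : ℕ) ^ k = 2 ^ k * 2 ^ k := by
      rw [← mul_pow]
      norm_num
    rw [h5]
    have h6 : 3 * 2 ^ k * (P * P) ≤ 3 * 2 ^ k * (2 ^ k * n) := Nat.mul_le_mul_left _ hPP
    calc P * (3 * 2 ^ k * P) = 3 * 2 ^ k * (P * P) := by ring
      _ ≤ 3 * 2 ^ k * (2 ^ k * n) := h6
      _ = 3 * (2 ^ k * 2 ^ k) * n := by ring
  have h7 : (((pr (n + 1) 1).filter (fun x => ll x.1 ≤ (P : ℕ) ∧ ll x.2 ≤ ((3 * 2 ^ k * P : ℕ) : ℤ))).card : ℝ) ≤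
      3 * 4 ^ k * n := by exact_mod_cast h4
  exact h7.trans (mul_le_mul_of_nonneg_left hnY (by positivity))

private theorem Mass_term {ψ : ℝ → ℝ} {k : ℕ} {L : ℝ} (hψ : PW ψ k L) {z : ℂ} (hz : ‖z‖ = 1) (n : ℕ) :
    ‖(tp ψ n : ℂ) * z ^ om n‖ = tp ψ n := by
  rw [norm_mul, norm_pow, hz, one_pow, mul_one, Complex.norm_real, Real.norm_of_nonneg (tp_nonneg hψ n)]

theorem norm_Sm {ψ : ℝ → ℝ} {k : ℕ} {L : ℝ} (hψ : PW ψ k L) {z : ℂ} (hz : ‖z‖ = 1) (Y : ℝ) :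
    ‖Sm ψ z Y‖ ≤ TT ψ Y := by
  unfold Sm TT
  refine (norm_sum_le _ _).trans (le_of_eq ?_)
  exact Finset.sum_congr rfl fun n _ => Mass_term hψ hz n

theorem Sm_diff {ψ : ℝ → ℝ} {k : ℕ} {L : ℝ} (hψ : PW ψ k L) {z : ℂ} (hz : ‖z‖ = 1) {Y Y' : ℝ} (h : Y ≤ Y') :
    ‖Sm ψ z Y' - Sm ψ z Y‖ ≤ TT ψ Y' - TT ψ Y := by
  have hsub : Icc 1 ⌊Y⌋₊ ⊆ Icc 1 ⌊Y'⌋₊ := Finset.Icc_subset_Icc le_rfl (Nat.floor_le_floor h)
  unfold Sm TT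
  rw [← Finset.sum_sdiff hsub (f := fun n => (tp ψ n : ℂ) * z ^ om n), ← Finset.sum_sdiff hsub (f := fun n => tp ψ n),
    add_sub_cancel_right, add_sub_cancel_right]
  refine (norm_sum_le _ _).trans (le_of_eq ?_)
  exact Finset.sum_congr rfl fun n _ => Mass_term hψ hz n

theorem SK_bdd {φ ψ : ℝ → ℝ} {a k : ℕ} {La L : ℝ} (hφ : PW φ a La) (hψ : PW ψ k L) {z : ℂ} (hz : ‖z‖ = 1) :
    ∃ C : ℝ, 0 ≤ C ∧ ∀ Y : ℝ, 0 < Y → ‖SK a φ ψ z Y‖ ≤ C := by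
  obtain ⟨C, hC, hT⟩ := TT_le hψ
  refine ⟨4 ^ a * C, by positivity, ?_⟩
  intro Y hY
  have h1 : ‖SK a φ ψ z Y‖ ≤ ∑ n ∈ Icc 1 ⌊2 ^ a * Y⌋₊, (2 ^ a / Y) * tp ψ n := by
    unfold SK
    refine (norm_sum_le _ _).trans (Finset.sum_le_sum fun n hn => ?_)
    rw [mem_Icc] at hn
    have hn0 : (0 : ℝ) < n := by exact_mod_cast hn.1
    have ht := tp_nonneg hψ n
    rw [norm_mul, norm_pow, hz, one_pow, mul_one, Complex.norm_real,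
      Real.norm_of_nonneg (div_nonneg (mul_nonneg (hφ.nn _) ht) hn0.le)]
    by_cases h0 : φ (n / Y) = 0
    · rw [h0, zero_mul, zero_div]
      positivity
    · have h2 := (hφ.sp _ h0).1
      rw [div_le_div_iff₀ (by positivity) hY, one_mul] at h2
      have h3 : φ (n / Y) * tp ψ n / n ≤ 1 * tp ψ n / n :=
        div_le_div_of_nonneg_right (mul_le_mul_of_nonneg_right (hφ.le _) ht) hn0.le
      refine h3.trans ?_
      rw [one_mul, div_le_iff₀ hn0]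
      have h4 : 1 ≤ 2 ^ a / Y * n := by
        rw [div_mul_eq_mul_div, le_div_iff₀ hY]
        linarith
      calc tp ψ n = 1 * tp ψ n := (one_mul _).symm
        _ ≤ (2 ^ a / Y * n) * tp ψ n := mul_le_mul_of_nonneg_right h4 ht
        _ = 2 ^ a / Y * tp ψ n * n := by ring
  refine h1.trans ?_
  rw [← Finset.mul_sum]
  have h2 := hT (2 ^ a * Y) (by positivity)
  unfold TT at h2
  calc 2 ^ a / Y * ∑ n ∈ Icc 1 ⌊2 ^ a * Y⌋₊, tp ψ n ≤ 2 ^ a / Y * (C * (2 ^ a * Y)) :=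
        mul_le_mul_of_nonneg_left h2 (by positivity)
    _ = 4 ^ a * C := by
      have h3 : (4 : ℝ) ^ a = 2 ^ a * 2 ^ a := by
        rw [← mul_pow]
        norm_num
      rw [h3]
      field_simp

theorem SK_lip {φ ψ : ℝ → ℝ} {a k : ℕ} {La L : ℝ} (hφ : PW φ a La) (hψ : PW ψ k L) {z : ℂ} (hz : ‖z‖ = 1) :
    ∃ C : ℝ, 0 ≤ C ∧ ∀ Y Y' : ℝ, 0 < Y → Y ≤ Y' → ‖SK a φ ψ z Y' - SK a φ ψ z Y‖ ≤ C * (Y' - Y) / Y := by
  obtain ⟨C, hC, hT⟩ := TT_le hψ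
  have hLa : 0 ≤ La := by
    have h1 := hφ.lip 0 1
    have h2 := abs_nonneg (φ 0 - φ 1)
    have h3 : |(0 : ℝ) - 1| = 1 := by norm_num
    rw [h3] at h1
    linarith
  refine ⟨La * 2 ^ a * C, by positivity, ?_⟩
  intro Y Y' hY hYY
  have hY' : 0 < Y' := lt_of_lt_of_le hY hYY
  have hsub : Icc 1 ⌊2 ^ a * Y⌋₊ ⊆ Icc 1 ⌊2 ^ a * Y'⌋₊ :=
    Finset.Icc_subset_Icc le_rfl (Nat.floor_le_floor (mul_le_mul_of_nonneg_left hYY (by positivity)))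
  have h1 : SK a φ ψ z Y = ∑ n ∈ Icc 1 ⌊2 ^ a * Y'⌋₊, ((φ (n / Y) * tp ψ n / n : ℝ) : ℂ) * z ^ om n := by
    unfold SK
    refine Finset.sum_subset hsub fun n hn hn' => ?_
    rw [mem_Icc] at hn hn'
    have h2 : ⌊2 ^ a * Y⌋₊ < n := by omega
    have h3 : 2 ^ a * Y < n := (Nat.floor_lt (by positivity)).1 h2
    have h4 : φ (n / Y) = 0 := by
      by_contra h0
      have h5 := (hφ.sp _ h0).2
      rw [div_le_iff₀ hY] at h5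
      linarith
    rw [h4]
    simp
  have h2 : SK a φ ψ z Y' - SK a φ ψ z Y = ∑ n ∈ Icc 1 ⌊2 ^ a * Y'⌋₊,
      (((φ (n / Y') - φ (n / Y)) * tp ψ n / n : ℝ) : ℂ) * z ^ om n := by
    rw [h1]
    unfold SK
    rw [← Finset.sum_sub_distrib]
    refine Finset.sum_congr rfl fun n _ => ?_
    push_cast
    ring
  rw [h2]
  have h3 : ‖∑ n ∈ Icc 1 ⌊2 ^ a * Y'⌋₊, (((φ (n / Y') - φ (n / Y)) * tp ψ n / n : ℝ) : ℂ) * z ^ om n‖ ≤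
      ∑ n ∈ Icc 1 ⌊2 ^ a * Y'⌋₊, (La * ((Y' - Y) / (Y * Y'))) * tp ψ n := by
    refine (norm_sum_le _ _).trans (Finset.sum_le_sum fun n hn => ?_)
    rw [mem_Icc] at hn
    have hn0 : (0 : ℝ) < n := by exact_mod_cast hn.1
    have ht := tp_nonneg hψ n
    rw [norm_mul, norm_pow, hz, one_pow, mul_one, Complex.norm_real, Real.norm_eq_abs, abs_div, abs_mul,
      abs_of_nonneg ht, abs_of_pos hn0]
    have h4 := hφ.lip (n / Y') (n / Y)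
    have h5 : |(n : ℝ) / Y' - n / Y| = n * ((Y' - Y) / (Y * Y')) := by
      have h6 : (n : ℝ) / Y' - n / Y = -(n * ((Y' - Y) / (Y * Y'))) := by
        field_simp
        ring
      rw [h6, abs_neg, abs_of_nonneg]
      have : 0 ≤ Y' - Y := by linarith
      positivity
    rw [h5] at h4
    rw [div_le_iff₀ hn0]
    calc |φ (n / Y') - φ (n / Y)| * tp ψ n ≤ (La * (n * ((Y' - Y) / (Y * Y')))) * tp ψ n :=
          mul_le_mul_of_nonneg_right h4 ht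
      _ = La * ((Y' - Y) / (Y * Y')) * tp ψ n * n := by ring
  refine h3.trans ?_
  rw [← Finset.mul_sum]
  have h4 := hT (2 ^ a * Y') (by positivity)
  unfold TT at h4
  have h5 : 0 ≤ La * ((Y' - Y) / (Y * Y')) := by
    have : 0 ≤ Y' - Y := by linarith
    positivity
  calc La * ((Y' - Y) / (Y * Y')) * ∑ n ∈ Icc 1 ⌊2 ^ a * Y'⌋₊, tp ψ n ≤
        La * ((Y' - Y) / (Y * Y')) * (C * (2 ^ a * Y')) := mul_le_mul_of_nonneg_left h4 h5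
    _ = La * 2 ^ a * C * (Y' - Y) / Y := by
      field_simp

end Pool.Agent.Lib.MP_d57abb_nt.GA.AS
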