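import Pool.Agent.Lib.MP_d57abb_nt.GA.AS.Defs
import Pool.Agent.Lib.MP_d57abb_nt.GA.MS.Defs

/-!
# The hypothesis for the theorem on almost all scales
-/

namespace Pool.Agent.Lib.MP_d57abb_nt.GA.AS

open Pool.Agent.Lib.MP_d57abb_nt Pool.Agent.Lib.MP_d57abb_nt.GA.TA Pool.Agent.Lib.MP_d57abb_nt.GA.TZ

/-- the condition for the sets of primes at hand and for sets of primes in short intervals `(P/(1+η), P]` -/
structure OkN [L : TA.Lab] (z : ℂ) : Prop where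
  ok : MS.Ok z
  nar : ∀ η : ℝ, 0 < η → ∃ L' : TA.Lab, L'.h = L.h ∧ @MS.Ok L' z ∧
    ∀ P p : ℕ, p ∈ L'.ps P → (P : ℝ) ≤ (1 + η) * p

theorem SK_inst {L L' : TA.Lab} (h : L'.h = L.h) (a : ℕ) (φ ψ : ℝ → ℝ) (z : ℂ) (Y : ℝ) :
    @SK L' a φ ψ z Y = @SK L a φ ψ z Y := by
  have e : ∀ k, @TZ.om L' k = @TZ.om L k := by
    intro k
    show L'.h (ff k) = L.h (ff k)
    rw [h]
  unfold SK
  simp only [e]

end Pool.Agent.Lib.MP_d57abb_nt.GA.AS
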