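import Pool.Agent.Lib.MP_d57abb_nt.GA.AS.AvgK
import Pool.Agent.Lib.MP_d57abb_nt.GA.AS.OkN
import Pool.Agent.Lib.MP_d57abb_nt.GA.AS.Dil
import Pool.Agent.Lib.MP_d57abb_nt.GA.AS.Mass

/-!
# The local averages tend to zero on average

`SK_lim`: `avgK` for sets of primes in `(P/(1+η), P]` and the Lipschitz property of `SK`; `MK_lim`: a finite net of `u ∈ [1/2, 1]` and `SK_dil`.
-/

namespace Pool.Agent.Lib.MP_d57abb_nt.GA.AS

open Finset Pool.Agent.Lib.MP_d57abb_nt Pool.Agent.Lib.MP_d57abb_nt.GA.TA Pool.Agent.Lib.MP_d57abb_nt.GA.TZ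

private theorem Lim_avg {ι : Type*} (S : Finset ι) (f : ι → ℂ) (v : ℂ) {ε : ℝ} (hS : 0 < S.card)
    (h : ∀ p ∈ S, ‖f p - v‖ ≤ ε) : ‖v‖ ≤ ‖(∑ p ∈ S, f p) / (S.card : ℂ)‖ + ε := by
  have hS' : (0 : ℝ) < S.card := by exact_mod_cast hS
  have hSC : (S.card : ℂ) ≠ 0 := by exact_mod_cast hS'.ne'
  have e1 : v = (∑ p ∈ S, f p) / (S.card : ℂ) - (∑ p ∈ S, (f p - v)) / (S.card : ℂ) := by
    rw [Finset.sum_sub_distrib, Finset.sum_const, nsmul_eq_mul]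
    field_simp
    ring
  have e2 : ‖(∑ p ∈ S, (f p - v)) / (S.card : ℂ)‖ ≤ ε := by
    rw [norm_div, Complex.norm_natCast, div_le_iff₀ hS']
    refine (norm_sum_le _ _).trans ((Finset.sum_le_sum h).trans (le_of_eq ?_))
    rw [Finset.sum_const, nsmul_eq_mul, mul_comm]
  calc ‖v‖ = ‖(∑ p ∈ S, f p) / (S.card : ℂ) - (∑ p ∈ S, (f p - v)) / (S.card : ℂ)‖ := by rw [← e1]
    _ ≤ ‖(∑ p ∈ S, f p) / (S.card : ℂ)‖ + ‖(∑ p ∈ S, (f p - v)) / (S.card : ℂ)‖ := norm_sub_le _ _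
    _ ≤ _ := by linarith

/-- the analytic part: `F` a function with the Lipschitz property, `S ρ` sets of numbers close to `4^(ρ-e)` -/
private theorem Lim_core (F : ℝ → ℂ) {C' η ε : ℝ} (hC'0 : 0 ≤ C') (hηC : C' * η ≤ ε) (hε : 0 < ε)
    (hC' : ∀ Y Y' : ℝ, 0 < Y → Y ≤ Y' → ‖F Y' - F Y‖ ≤ C' * (Y' - Y) / Y) (e : ℕ) (S : ℕ → Finset ℕ)
    (hS1 : ∀ ρ, ∀ p ∈ S ρ, 0 < p ∧ p ≤ PP (2 * e) ρ)
    (hS2 : ∀ ρ, ∀ p ∈ S ρ, ((PP (2 * e) ρ : ℕ) : ℝ) ≤ (1 + η) * p)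
    (he : ∀ ρ₀ : ℕ, ∃ J I₀ : ℕ, ∀ I : ℕ, I₀ ≤ I → ∃ ρ : ℕ, ρ₀ ≤ ρ ∧ ρ ≤ J ∧ 0 < (S ρ).card ∧
      (∑ j ∈ range I, ‖(∑ p ∈ S ρ, F (4 ^ j / p)) / ((S ρ).card : ℂ)‖) / (I : ℝ) ≤ ε) :
    ∃ N : ℕ, ∀ I : ℕ, N ≤ I → ∑ j ∈ range I, ‖F (4 ^ j)‖ ≤ 3 * ε * I := by
  obtain ⟨J, I₀, hJ⟩ := he e
  refine ⟨I₀ + J + 1, fun I hI => ?_⟩
  obtain ⟨ρ, hρ1, hρ2, hne, hsum⟩ := hJ (I + J) (by omega)
  obtain ⟨σ, hσ⟩ : ∃ σ : ℕ, σ = ρ - e := ⟨_, rfl⟩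
  have hPP : PP (2 * e) ρ = 4 ^ σ := by
    unfold PP
    have : 2 * ρ - 2 * e = 2 * σ := by omega
    rw [this, pow_mul]
    norm_num
  have hI0 : (0 : ℝ) < (I : ℝ) := by exact_mod_cast (by omega : 0 < I)
  have hIJ0 : (0 : ℝ) < ((I + J : ℕ) : ℝ) := by exact_mod_cast (by omega : 0 < I + J)
  rw [div_le_iff₀ hIJ0] at hsum
  have hone : ∀ i : ℕ, ‖F (4 ^ i)‖ ≤
      ‖(∑ p ∈ S ρ, F (4 ^ (σ + i) / p)) / ((S ρ).card : ℂ)‖ + ε := by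
    intro i
    refine Lim_avg (S ρ) (fun p : ℕ => F (4 ^ (σ + i) / p)) _ hne fun p hp => ?_
    have h1 := hS2 ρ p hp
    have h2 := hS1 ρ p hp
    rw [hPP] at h1 h2
    have hp0 : (0 : ℝ) < p := by exact_mod_cast h2.1
    have h3 : (p : ℝ) ≤ ((4 ^ σ : ℕ) : ℝ) := by exact_mod_cast h2.2
    have h4 : (4 : ℝ) ^ i ≤ 4 ^ (σ + i) / p := by
      rw [le_div_iff₀ hp0, pow_add, mul_comm ((4 : ℝ) ^ σ)]
      push_cast at h3
      exact mul_le_mul_of_nonneg_left h3 (by positivity)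
    refine (hC' _ _ (by positivity) h4).trans ?_
    have h5 : C' * ((4 : ℝ) ^ (σ + i) / p - 4 ^ i) / 4 ^ i = C' * ((4 : ℝ) ^ σ / p - 1) := by
      rw [pow_add]
      field_simp
    rw [h5]
    have h6 : (4 : ℝ) ^ σ / p - 1 ≤ η := by
      rw [sub_le_iff_le_add, div_le_iff₀ hp0]
      push_cast at h1
      linarith
    exact (mul_le_mul_of_nonneg_left h6 hC'0).trans hηC
  have h5 : ∑ i ∈ range I, ‖(∑ p ∈ S ρ, F (4 ^ (σ + i) / p)) / ((S ρ).card : ℂ)‖ ≤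
      ∑ j ∈ range (I + J), ‖(∑ p ∈ S ρ, F (4 ^ j / p)) / ((S ρ).card : ℂ)‖ := by
    have e1 : ∑ j ∈ range (σ + I), ‖(∑ p ∈ S ρ, F (4 ^ j / p)) /
        ((S ρ).card : ℂ)‖ = _ + _ := Finset.sum_range_add _ _ _
    have e2 : ∑ j ∈ range (σ + I), ‖(∑ p ∈ S ρ, F (4 ^ j / p)) /
        ((S ρ).card : ℂ)‖ ≤ ∑ j ∈ range (I + J),
        ‖(∑ p ∈ S ρ, F (4 ^ j / p)) / ((S ρ).card : ℂ)‖ :=
      Finset.sum_le_sum_of_subset_of_nonneg (Finset.range_mono (by omega))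
        fun i _ _ => norm_nonneg _
    rw [e1] at e2
    have e3 : 0 ≤ ∑ j ∈ range σ, ‖(∑ p ∈ S ρ, F (4 ^ j / p)) / ((S ρ).card : ℂ)‖ :=
      Finset.sum_nonneg fun _ _ => norm_nonneg _
    linarith
  have h6 : ∑ i ∈ range I, ‖F (4 ^ i)‖ ≤
      (∑ i ∈ range I, ‖(∑ p ∈ S ρ, F (4 ^ (σ + i) / p)) / ((S ρ).card : ℂ)‖) + ε * I := by
    refine (Finset.sum_le_sum fun i _ => hone i).trans (le_of_eq ?_)
    rw [Finset.sum_add_distrib, Finset.sum_const, card_range, nsmul_eq_mul, mul_comm (I : ℝ) ε]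
  have hJI : ((I + J : ℕ) : ℝ) ≤ 2 * I := by
    have : I + J ≤ 2 * I := by omega
    exact_mod_cast this
  have h7 := mul_le_mul_of_nonneg_left hJI hε.le
  linarith

theorem SK_lim [L₀ : Pool.Agent.Lib.MP_d57abb_nt.GA.TA.Lab] {q : ℕ} (hq : 1 ≤ q) {z : ℂ} (hz : z ^ q = 1)
    (hz1 : OkN z) {φ ψ : ℝ → ℝ} {a k : ℕ} {La L : ℝ} (hφ : PW φ a La) (hψ : PW ψ k L) :
    Filter.Tendsto (fun I : ℕ => (∑ j ∈ range I, ‖SK a φ ψ z (4 ^ j)‖) / (I : ℝ)) Filter.atTop (nhds 0) := by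
  have hzn : ‖z‖ = 1 := by
    have h1 : ‖z‖ ^ q = 1 := by rw [← norm_pow, hz, norm_one]
    exact (pow_eq_one_iff_of_nonneg (norm_nonneg _) (by omega)).1 h1
  rw [Metric.tendsto_atTop]
  intro ε₀ hε₀
  obtain ⟨ε, hεd⟩ : ∃ ε : ℝ, ε = ε₀ / 4 := ⟨_, rfl⟩
  have hε : 0 < ε := by
    rw [hεd]
    positivity
  obtain ⟨C', hC'0, hC'⟩ := SK_lip hφ hψ hzn
  obtain ⟨η, hη⟩ : ∃ η : ℝ, η = ε / (C' + 1) := ⟨_, rfl⟩
  have hη0 : 0 < η := by rw [hη]; positivity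
  have hηC : C' * η ≤ ε := by
    rw [hη, mul_div_assoc', div_le_iff₀ (by positivity)]
    nlinarith
  have hnar := hz1.nar η hη0
  obtain ⟨F, hF⟩ : ∃ F : ℝ → ℂ, F = fun Y => SK a φ ψ z Y := ⟨_, rfl⟩
  have hC'' : ∀ Y Y' : ℝ, 0 < Y → Y ≤ Y' → ‖F Y' - F Y‖ ≤ C' * (Y' - Y) / Y := by
    rw [hF]
    exact hC'
  have key : ∃ N : ℕ, ∀ I : ℕ, N ≤ I → ∑ j ∈ range I, ‖F (4 ^ j)‖ ≤ 3 * ε * I := by
    obtain ⟨L', hL', hok', hnar'⟩ := hnar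
    obtain ⟨e, he⟩ := @avgK L' q hq z hz hok' φ ψ a k La L hφ hψ ε hε
    have hF' : ∀ Y, @SK L' a φ ψ z Y = F Y := by
      intro Y
      rw [hF]
      exact SK_inst hL' a φ ψ z Y
    simp only [hF'] at he
    refine Lim_core F hC'0 hηC hε hC'' e (fun ρ => @PS L' (PP (2 * e) ρ)) ?_ ?_ he
    · intro ρ p hp
      have h2 := (L'.psub _ p hp).1
      exact ⟨by omega, h2.2⟩
    · intro ρ p hp
      exact hnar' _ p hp
  obtain ⟨N, hN⟩ := key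
  refine ⟨N + 1, fun I hI => ?_⟩
  have hI0 : (0 : ℝ) < (I : ℝ) := by exact_mod_cast (by omega : 0 < I)
  have h7 := hN I (by omega)
  rw [hF] at h7
  have h8 : 0 ≤ ∑ i ∈ range I, ‖SK a φ ψ z (4 ^ i)‖ := Finset.sum_nonneg fun _ _ => norm_nonneg _
  rw [dist_zero_right, Real.norm_of_nonneg (div_nonneg h8 hI0.le), div_lt_iff₀ hI0]
  refine h7.trans_lt ?_
  rw [hεd]
  nlinarith [mul_pos hε₀ hI0]

theorem MK_lim [L₀ : Pool.Agent.Lib.MP_d57abb_nt.GA.TA.Lab] {q : ℕ} (hq : 1 ≤ q) {z : ℂ} (hz : z ^ q = 1)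
    (hz1 : OkN z) {φ ψ : ℝ → ℝ} {a k : ℕ} {La L : ℝ} (hφ : PW φ a La) (hψ : PW ψ k L) :
    Filter.Tendsto (fun I : ℕ => (∑ j ∈ range I, ‖MK a φ ψ z (4 ^ j)‖) / (I : ℝ)) Filter.atTop (nhds 0) := by
  have hzn : ‖z‖ = 1 := by
    have h1 : ‖z‖ ^ q = 1 := by rw [← norm_pow, hz, norm_one]
    exact (pow_eq_one_iff_of_nonneg (norm_nonneg _) (by omega)).1 h1
  obtain ⟨C', hC'0, hC'⟩ := SK_lip hφ hψ hzn
  rw [Metric.tendsto_atTop]
  intro ε hε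
  obtain ⟨R, hR⟩ := exists_nat_gt (2 * C' / ε + 1)
  have hR1 : (1 : ℝ) < R := by
    have : 0 ≤ 2 * C' / ε := by positivity
    linarith
  have hR0 : (0 : ℝ) < R := by linarith
  have hCR : C' / R ≤ ε / 2 := by
    rw [div_le_iff₀ hR0]
    have h1 : 2 * C' / ε < R := by linarith
    rw [div_lt_iff₀ hε] at h1
    linarith
  obtain ⟨t, ht⟩ : ∃ t : ℕ → ℝ, t = fun i : ℕ => 1 + (i : ℝ) / R := ⟨_, rfl⟩
  have ht1 : ∀ i, 1 ≤ t i := by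
    intro i
    rw [ht]
    have : 0 ≤ (i : ℝ) / R := by positivity
    show 1 ≤ 1 + (i : ℝ) / R
    linarith
  have ht4 : ∀ i ∈ range (R + 1), t i ≤ 4 := by
    intro i hi
    have h1 : (i : ℝ) ≤ R := by exact_mod_cast Nat.lt_succ_iff.1 (mem_range.1 hi)
    rw [ht]
    have h2 : (i : ℝ) / R ≤ 1 := by
      rw [div_le_iff₀ hR0]
      linarith
    show 1 + (i : ℝ) / R ≤ 4
    linarith
  -- the pointwise bound
  have hpt : ∀ j : ℕ, ‖MK a φ ψ z (4 ^ j)‖ ≤ ε / 4 + ∑ i ∈ range (R + 1), ‖SK a φ ψ z (t i * 4 ^ j)‖ := by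
    intro j
    have hp : (0 : ℝ) < 4 ^ j := by positivity
    have hbd : ∀ u ∈ Set.uIoc (1 / 2 : ℝ) 1, ‖SK a φ ψ z (4 ^ j / u)‖ ≤
        C' / R + ∑ i ∈ range (R + 1), ‖SK a φ ψ z (t i * 4 ^ j)‖ := by
      intro u hu
      rw [Set.uIoc_of_le (by norm_num)] at hu
      have hu0 : 0 < u := by linarith [hu.1]
      obtain ⟨s, hs⟩ : ∃ s : ℝ, s = 1 / u := ⟨_, rfl⟩
      have hs1 : 1 ≤ s := by
        rw [hs, le_div_iff₀ hu0]
        linarith [hu.2]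
      have hs2 : s ≤ 2 := by
        rw [hs, div_le_iff₀ hu0]
        linarith [hu.1]
      have hsY : (4 : ℝ) ^ j / u = s * 4 ^ j := by
        rw [hs]
        field_simp
      obtain ⟨i, hi⟩ : ∃ i : ℕ, i = ⌊(s - 1) * R⌋₊ := ⟨_, rfl⟩
      have hi1 : (i : ℝ) ≤ (s - 1) * R := by
        rw [hi]
        exact Nat.floor_le (by
          have : 0 ≤ s - 1 := by linarith
          positivity)
      have hi2 : (s - 1) * R < i + 1 := by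
        rw [hi]
        exact Nat.lt_floor_add_one _
      have hiR : i ∈ range (R + 1) := by
        rw [mem_range, Nat.lt_succ_iff]
        have h1 : (i : ℝ) ≤ R := by
          refine hi1.trans ?_
          have h2 : (s - 1) * R ≤ 1 * R := mul_le_mul_of_nonneg_right (by linarith) hR0.le
          linarith
        exact_mod_cast h1
      have hts : t i ≤ s := by
        rw [ht]
        show 1 + (i : ℝ) / R ≤ s
        have h1 : (i : ℝ) / R ≤ s - 1 := by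
          rw [div_le_iff₀ hR0]
          linarith
        linarith
      have hst : s ≤ t i + 1 / R := by
        rw [ht]
        show s ≤ 1 + (i : ℝ) / R + 1 / R
        have h1 : s - 1 ≤ (i : ℝ) / R + 1 / R := by
          rw [← add_div, le_div_iff₀ hR0]
          linarith
        linarith
      have hti : 0 < t i := by linarith [ht1 i]
      have h1 := hC' (t i * 4 ^ j) (s * 4 ^ j) (mul_pos hti hp) (mul_le_mul_of_nonneg_right hts hp.le)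
      have h2 : C' * (s * 4 ^ j - t i * 4 ^ j) / (t i * 4 ^ j) = C' * (s - t i) / t i := by
        field_simp
      rw [h2] at h1
      have h3 : C' * (s - t i) / t i ≤ C' * (s - t i) :=
        div_le_self (mul_nonneg hC'0 (by linarith)) (ht1 i)
      have h4 : C' * (s - t i) ≤ C' * (1 / R) := mul_le_mul_of_nonneg_left (by linarith) hC'0
      have h5 : C' * (1 / R) = C' / R := by ring
      have h6 : ‖SK a φ ψ z (t i * 4 ^ j)‖ ≤ ∑ i ∈ range (R + 1), ‖SK a φ ψ z (t i * 4 ^ j)‖ :=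
        single_le_sum (f := fun i => ‖SK a φ ψ z (t i * 4 ^ j)‖) (fun i _ => norm_nonneg _) hiR
      have h7 := norm_add_le (SK a φ ψ z (s * 4 ^ j) - SK a φ ψ z (t i * 4 ^ j)) (SK a φ ψ z (t i * 4 ^ j))
      rw [sub_add_cancel] at h7
      rw [hsY]
      linarith
    unfold MK
    refine (intervalIntegral.norm_integral_le_of_norm_le_const hbd).trans ?_
    have h5 : |(1 : ℝ) - 1 / 2| = 1 / 2 := by norm_num
    rw [h5]
    have h6 : 0 ≤ ∑ i ∈ range (R + 1), ‖SK a φ ψ z (t i * 4 ^ j)‖ := sum_nonneg fun _ _ => norm_nonneg _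
    linarith
  have hlim : Filter.Tendsto (fun I : ℕ => ∑ i ∈ range (R + 1),
      (∑ j ∈ range I, ‖SK (a + 2) (fun x => φ (x / t i)) ψ z (4 ^ j)‖) / (I : ℝ)) Filter.atTop (nhds 0) := by
    have h2 : (0 : ℝ) = ∑ i ∈ range (R + 1), (0 : ℝ) := by rw [sum_const_zero]
    rw [h2]
    refine tendsto_finsetSum _ fun i hi => ?_
    exact SK_lim hq hz hz1 (PW_dil hφ (ht1 i) (ht4 i hi)) hψ
  obtain ⟨I₁, hI₁⟩ := Metric.tendsto_atTop.1 hlim (ε / 2) (by positivity)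
  refine ⟨I₁ + 1, fun I hI => ?_⟩
  have hI0 : (0 : ℝ) < (I : ℝ) := by exact_mod_cast (by omega : 0 < I)
  have h1 := hI₁ I (by omega)
  have h2 : ∑ i ∈ range (R + 1),
      (∑ j ∈ range I, ‖SK (a + 2) (fun x => φ (x / t i)) ψ z (4 ^ j)‖) / (I : ℝ) =
      (∑ j ∈ range I, ∑ i ∈ range (R + 1), ‖SK a φ ψ z (t i * 4 ^ j)‖) / (I : ℝ) := by
    rw [sum_comm, Finset.sum_div]
    refine sum_congr rfl fun i hi => ?_
    congr 1
    refine sum_congr rfl fun j _ => ?_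
    rw [SK_dil hφ z (ht1 i) (ht4 i hi) (by positivity)]
  rw [h2] at h1
  have h3 : 0 ≤ ∑ j ∈ range I, ∑ i ∈ range (R + 1), ‖SK a φ ψ z (t i * 4 ^ j)‖ :=
    sum_nonneg fun _ _ => sum_nonneg fun _ _ => norm_nonneg _
  rw [dist_zero_right, Real.norm_of_nonneg (div_nonneg h3 hI0.le), div_lt_iff₀ hI0] at h1
  have h8 : 0 ≤ ∑ i ∈ range I, ‖MK a φ ψ z (4 ^ i)‖ := Finset.sum_nonneg fun _ _ => norm_nonneg _
  rw [dist_zero_right, Real.norm_of_nonneg (div_nonneg h8 hI0.le), div_lt_iff₀ hI0]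
  have h4 : ∑ j ∈ range I, ‖MK a φ ψ z (4 ^ j)‖ ≤ ε / 4 * I +
      ∑ j ∈ range I, ∑ i ∈ range (R + 1), ‖SK a φ ψ z (t i * 4 ^ j)‖ := by
    refine (Finset.sum_le_sum fun j _ => hpt j).trans (le_of_eq ?_)
    rw [Finset.sum_add_distrib, Finset.sum_const, card_range, nsmul_eq_mul, mul_comm (I : ℝ)]
  have h5 := mul_pos hε hI0
  linarith

end Pool.Agent.Lib.MP_d57abb_nt.GA.AS
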