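import Pool.Agent.Lib.MP_d57abb_nt.GA.MS.Main
import Pool.Agent.Lib.MP_d57abb_nt.GA.TA.MRin
import Pool.Agent.Lib.MP_d57abb_nt.GA.TA.Defs3
import Pool.Agent.Lib.MP_d57abb_nt.KT.Defs

/-!
# The model is small, general weights

`MS.model_small_gen` with the theorem in short intervals `mrp_in`.  If `γ₀ = 0` the weight vanishes identically (its
support in `y` is the point `1`).
-/

namespace Pool.Agent.Lib.MP_d57abb_nt.GA.AS

variable [Pool.Agent.Lib.MP_d57abb_nt.GA.TA.Lab]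

open Finset Pool.Agent.Lib.MP_d57abb_nt Pool.Agent.Lib.MP_d57abb_nt.GA.TA

theorem model_small_g {q : ℕ} (hq : 1 ≤ q) {z : ℂ} (hz : z ^ q = 1) (hz1 : MS.Ok z) {g : ℝ → ℝ} {Lg : ℝ}
    (hg0 : ∀ x, 0 ≤ g x ∧ g x ≤ 1) (hgl : ∀ x y, |g x - g y| ≤ Lg * |x - y|)
    {Wh : ℝ → ℝ → ℝ} {γ₀ : ℕ} {B L : ℝ} (hB : 0 ≤ B) (hL : 0 ≤ L) (hW : GW Wh (2 ^ γ₀) B L)
    (hx : ∀ x y, Wh x y ≠ 0 → 1 / 2 ≤ x ∧ x ≤ 2) (hy : ∀ x y, Wh x y ≠ 0 → 1 / 2 ^ γ₀ ≤ y)
    {γ : ℕ} (hγ : γ₀ + 4 ≤ γ) {W : ℕ} (hW0 : 0 < W) (e : ℕ) {ε : ℝ} (hε : 0 < ε) :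
    ∃ ρ₁ : ℕ, ∀ ρ : ℕ, ρ₁ ≤ ρ → ∃ j₁ : ℕ, ∀ j : ℕ, j₁ ≤ j → ∀ b lo hi : ℕ, PP e ρ / 2 ≤ lo → hi ≤ PP e ρ →
      ‖∑ m ∈ NC W b lo hi, Bm (fun v => g (mu1 v)) Wh z γ j m‖ ≤ ε * PP e ρ := by
  have hLg : 0 ≤ Lg := by
    have h1 := hgl 0 1
    have h2 := (abs_nonneg (g 0 - g 1)).trans h1
    norm_num at h2
    exact h2
  by_cases hγ0 : γ₀ = 0
  · -- the weight vanishes
    have hz0 : ∀ x y, Wh x y = 0 := by
      intro x y
      by_contra hne
      have h1 := hy x y hne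
      have h2 := (hW.sy x y hne).2
      rw [hγ0] at h1 h2
      norm_num at h1 h2
      have hy1 : y = 1 := le_antisymm h2 h1
      have hzero : ∀ t : ℝ, 0 < t → Wh x (y + t) = 0 := by
        intro t ht
        by_contra hne'
        have h3 := (hW.sy x (y + t) hne').2
        rw [hγ0] at h3
        norm_num at h3
        linarith
      have hpos : 0 < |Wh x y| := abs_pos.2 hne
      have h4 := hW.lip x y x (y + |Wh x y| / (2 * (L + 1)))
      have hL1 : 0 < 2 * (L + 1) := by linarith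
      have h5' : 0 < |Wh x y| / (2 * (L + 1)) := div_pos hpos hL1
      rw [hzero _ h5', sub_zero, sub_self, abs_zero, zero_add] at h4
      have h6 : |y - (y + |Wh x y| / (2 * (L + 1)))| = |Wh x y| / (2 * (L + 1)) := by
        have : y - (y + |Wh x y| / (2 * (L + 1))) = -(|Wh x y| / (2 * (L + 1))) := by ring
        rw [this, abs_neg, abs_of_pos h5']
      rw [h6] at h4
      have h7 : L * (|Wh x y| / (2 * (L + 1))) ≤ |Wh x y| / 2 := by
        have h8 : L * (|Wh x y| / (2 * (L + 1))) = (L / (L + 1)) * (|Wh x y| / 2) := by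
          have : L + 1 ≠ 0 := by linarith
          field_simp
        rw [h8]
        have h9 : L / (L + 1) ≤ 1 := by
          rw [div_le_one (by linarith)]
          linarith
        calc L / (L + 1) * (|Wh x y| / 2) ≤ 1 * (|Wh x y| / 2) :=
              mul_le_mul_of_nonneg_right h9 (by linarith)
          _ = |Wh x y| / 2 := one_mul _
      linarith
    refine ⟨0, fun ρ _ => ⟨0, fun j _ b lo hi _ _ => ?_⟩⟩
    have hb : ∀ m ∈ NC W b lo hi, Bm (fun v => g (mu1 v)) Wh z γ j m = 0 := by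
      intro m _
      unfold Bm
      refine Finset.sum_eq_zero fun x _ => ?_
      rw [hz0]
      simp
    rw [Finset.sum_eq_zero hb, norm_zero]
    exact mul_nonneg hε.le (Nat.cast_nonneg _)
  · exact MS.model_small_gen hq hz (mrp_in hz1) (gm := g) (Wh := Wh) (B₀ := B) (L₀ := L) (Lg := Lg)
      (g₀ := γ₀) hB hL hLg (fun x => (hg0 x).1) (fun x => (hg0 x).2) hgl hW.nn hW.le hW.lip
      (fun x y hxy => ⟨hx x y hxy, hy x y hxy, (hW.sy x y hxy).2⟩) hγ (by omega) hW0 e hε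

end Pool.Agent.Lib.MP_d57abb_nt.GA.AS
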