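import Pool.Agent.Lib.MP_d57abb_nt.GA.AS.Lim
import Pool.Agent.Lib.MP_d57abb_nt.GA.AS.NlA

/-!
# all real scales (about 120 lines)

* `PW_dil`: for `1 ≤ t ≤ 4` the function `φ_t x = φ (x / t)` satisfies `PW φ_t (a + 2) La` (support `[2^(-a) t, 2^a t]`, Lipschitz constant `La / t ≤ La`, `0 ≤ La`).
* `SK_dil`: `SK a φ ψ z (t Y) = SK (a + 2) φ_t ψ z Y` for `Y > 0`: `φ (k / (t Y)) = φ_t (k / Y)`, the extra terms `2^a t Y < k ≤ 2^(a+2) Y` vanish.  So `MK a φ ψ z (t Y) = MK (a + 2) φ_t ψ z Y` (apply it at `Y / u`).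
* `Nl_MK`: let `ε > 0`, `R ≥ 1` large, `t_i = 1 + 3 i / R`, `i ≤ R`.  For `Y ∈ [4^j, 4^(j+1)]` let `t = Y / 4^j ∈ [1, 4]`, `t_i ≤ t ≤ t_i + 3 / R`.  `‖MK (t 4^j) - MK (t_i 4^j)‖ ≤ ∫ ‖SK (t 4^j / u) - SK (t_i 4^j / u)‖ du ≤ (1/2) C (t - t_i) / t_i ≤ 3 C / (2 R) ≤ ε` (`SK_lip`; integrability: `u ↦ SK (Y / u)` is continuous
on `[1/2, 1]`, by `SK_lip`).  So `A j = ∑_{i ≤ R} ‖MK a φ ψ z (t_i 4^j)‖ = ∑_i ‖MK (a+2) φ_{t_i} ψ z (4^j)‖`, and `MK_lim` for each `i`.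
-/

namespace Pool.Agent.Lib.MP_d57abb_nt.GA.AS

variable [Pool.Agent.Lib.MP_d57abb_nt.GA.TA.Lab]

open Finset Pool.Agent.Lib.MP_d57abb_nt Pool.Agent.Lib.MP_d57abb_nt.GA.TA Pool.Agent.Lib.MP_d57abb_nt.GA.TZ

private theorem Net_int {φ ψ : ℝ → ℝ} {a : ℕ} {z : ℂ} {C : ℝ} (hC : 0 ≤ C)
    (hlip : ∀ Y Y' : ℝ, 0 < Y → Y ≤ Y' →
      ‖SK a φ ψ z Y' - SK a φ ψ z Y‖ ≤ C * (Y' - Y) / Y) {Y : ℝ} (hY : 0 < Y) :
    IntervalIntegrable (fun u => SK a φ ψ z (Y / u)) MeasureTheory.volume (1 / 2) 1 := by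
  apply ContinuousOn.intervalIntegrable
  rw [Set.uIcc_of_le (by norm_num)]
  have key : ∀ u ∈ Set.Icc (1 / 2 : ℝ) 1, ∀ v ∈ Set.Icc (1 / 2 : ℝ) 1, u ≤ v →
      ‖SK a φ ψ z (Y / u) - SK a φ ψ z (Y / v)‖ ≤ 2 * C * |u - v| := by
    intro u hu v hv huv
    have hu0 : 0 < u := by linarith [hu.1]
    have hv0 : 0 < v := by linarith [hv.1]
    have h1 := hlip (Y / v) (Y / u) (by positivity) (div_le_div_of_nonneg_left hY.le hu0 huv)
    refine h1.trans ?_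
    have h2 : C * (Y / u - Y / v) / (Y / v) = C * (v - u) / u := by
      field_simp
    rw [h2, div_le_iff₀ hu0, abs_sub_comm, abs_of_nonneg (sub_nonneg.2 huv)]
    have h3 : 0 ≤ C * (v - u) := mul_nonneg hC (sub_nonneg.2 huv)
    nlinarith [hu.1]
  have key2 : ∀ u ∈ Set.Icc (1 / 2 : ℝ) 1, ∀ v ∈ Set.Icc (1 / 2 : ℝ) 1,
      dist (SK a φ ψ z (Y / u)) (SK a φ ψ z (Y / v)) ≤ 2 * C * dist u v := by
    intro u hu v hv
    rw [dist_eq_norm, Real.dist_eq]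
    rcases le_total u v with h | h
    · exact key u hu v hv h
    · rw [norm_sub_rev, abs_sub_comm]
      exact key v hv u hu h
  exact (LipschitzOnWith.of_dist_le_mul (K := Real.toNNReal (2 * C)) fun u hu v hv => by
    rw [Real.coe_toNNReal _ (by positivity)]
    exact key2 u hu v hv).continuousOn

private theorem Net_MK {φ ψ : ℝ → ℝ} {a : ℕ} {La : ℝ} (hφ : PW φ a La) (z : ℂ) {t : ℝ}
    (h1 : 1 ≤ t) (h4 : t ≤ 4) {Y : ℝ} (hY : 0 < Y) :
    MK a φ ψ z (t * Y) = MK (a + 2) (fun x => φ (x / t)) ψ z Y := by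
  unfold MK
  refine intervalIntegral.integral_congr fun u hu => ?_
  rw [Set.uIcc_of_le (by norm_num)] at hu
  have hu0 : 0 < u := by linarith [hu.1]
  show SK a φ ψ z (t * Y / u) = SK (a + 2) (fun x => φ (x / t)) ψ z (Y / u)
  rw [← SK_dil hφ z h1 h4 (div_pos hY hu0), mul_div_assoc]

theorem Nl_MK {q : ℕ} (hq : 1 ≤ q) {z : ℂ} (hz : z ^ q = 1) (hz1 : OkN z) {φ ψ : ℝ → ℝ} {a k : ℕ} {La L : ℝ}
    (hφ : PW φ a La) (hψ : PW ψ k L) : Nl (fun Y => ‖MK a φ ψ z Y‖) := by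
  have hn : ‖z‖ = 1 := Complex.norm_eq_one_of_pow_eq_one hz (by omega)
  obtain ⟨C, hC, hlip⟩ := SK_lip hφ hψ hn
  intro ε hε
  obtain ⟨R, hR⟩ := exists_nat_gt (3 * C / ε + 1)
  have hR1 : (1 : ℝ) < R := by
    have : 0 ≤ 3 * C / ε := by positivity
    linarith
  have hR0 : (0 : ℝ) < R := by linarith
  have hCR : 3 * C / R ≤ ε := by
    rw [div_le_iff₀ hR0]
    have h1 : 3 * C / ε < R := by linarith
    rw [div_lt_iff₀ hε] at h1
    linarith
  obtain ⟨t, ht⟩ : ∃ t : ℕ → ℝ, t = fun i : ℕ => 1 + 3 * (i : ℝ) / R := ⟨_, rfl⟩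
  have ht1 : ∀ i, 1 ≤ t i := by
    intro i
    rw [ht]
    have : 0 ≤ 3 * (i : ℝ) / R := by positivity
    show 1 ≤ 1 + 3 * (i : ℝ) / R
    linarith
  have ht4 : ∀ i ∈ range (R + 1), t i ≤ 4 := by
    intro i hi
    have h1 : (i : ℝ) ≤ R := by exact_mod_cast Nat.lt_succ_iff.1 (mem_range.1 hi)
    rw [ht]
    have h2 : 3 * (i : ℝ) / R ≤ 3 := by
      rw [div_le_iff₀ hR0]
      linarith
    show 1 + 3 * (i : ℝ) / R ≤ 4
    linarith
  refine ⟨fun j => ∑ i ∈ range (R + 1), ‖MK a φ ψ z (t i * 4 ^ j)‖,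
    fun j => sum_nonneg fun i _ => norm_nonneg _, ?_, ?_⟩
  · have h1 : (fun I : ℕ => (∑ j ∈ range I, ∑ i ∈ range (R + 1), ‖MK a φ ψ z (t i * 4 ^ j)‖) / (I : ℝ)) =
        fun I : ℕ => ∑ i ∈ range (R + 1),
          (∑ j ∈ range I, ‖MK (a + 2) (fun x => φ (x / t i)) ψ z (4 ^ j)‖) / (I : ℝ) := by
      funext I
      rw [sum_comm, Finset.sum_div]
      refine sum_congr rfl fun i hi => ?_
      congr 1
      refine sum_congr rfl fun j _ => ?_
      rw [Net_MK hφ z (ht1 i) (ht4 i hi) (by positivity)]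
    rw [h1]
    have h2 : (0 : ℝ) = ∑ i ∈ range (R + 1), (0 : ℝ) := by rw [sum_const_zero]
    rw [h2]
    refine tendsto_finsetSum _ fun i hi => ?_
    exact MK_lim hq hz hz1 (PW_dil hφ (ht1 i) (ht4 i hi)) hψ
  · intro j Y hY1 hY2
    have hp : (0 : ℝ) < 4 ^ j := by positivity
    have hY0 : 0 < Y := lt_of_lt_of_le hp hY1
    obtain ⟨s, hs⟩ : ∃ s : ℝ, s = Y / 4 ^ j := ⟨_, rfl⟩
    have hs1 : 1 ≤ s := by
      rw [hs, le_div_iff₀ hp, one_mul]
      exact hY1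
    have hs4 : s ≤ 4 := by
      rw [hs, div_le_iff₀ hp]
      rw [pow_succ] at hY2
      linarith
    have hYs : Y = s * 4 ^ j := by
      rw [hs]
      field_simp
    obtain ⟨i, hi⟩ : ∃ i : ℕ, i = ⌊(s - 1) * R / 3⌋₊ := ⟨_, rfl⟩
    have hi1 : (i : ℝ) ≤ (s - 1) * R / 3 := by
      rw [hi]
      exact Nat.floor_le (by
        have : 0 ≤ s - 1 := by linarith
        positivity)
    have hi2 : (s - 1) * R / 3 < i + 1 := by
      rw [hi]
      exact Nat.lt_floor_add_one _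
    have hiR : i ∈ range (R + 1) := by
      rw [mem_range, Nat.lt_succ_iff]
      have h1 : (i : ℝ) ≤ R := by
        refine hi1.trans ?_
        have h2 : (s - 1) * R ≤ 3 * R := mul_le_mul_of_nonneg_right (by linarith) hR0.le
        linarith
      exact_mod_cast h1
    have hts : t i ≤ s := by
      rw [ht]
      show 1 + 3 * (i : ℝ) / R ≤ s
      have h1 : 3 * (i : ℝ) / R ≤ s - 1 := by
        rw [div_le_iff₀ hR0]
        linarith
      linarith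
    have hst : s ≤ t i + 3 / R := by
      rw [ht]
      show s ≤ 1 + 3 * (i : ℝ) / R + 3 / R
      have h1 : s - 1 ≤ 3 * (i : ℝ) / R + 3 / R := by
        rw [← add_div, le_div_iff₀ hR0]
        linarith
      linarith
    have hti : 0 < t i := by linarith [ht1 i]
    have hYi : 0 < t i * 4 ^ j := mul_pos hti hp
    have hdiff : ‖MK a φ ψ z Y - MK a φ ψ z (t i * 4 ^ j)‖ ≤ ε := by
      unfold MK
      rw [← intervalIntegral.integral_sub (Net_int hC hlip hY0) (Net_int hC hlip hYi)]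
      have hbd : ∀ u ∈ Set.uIoc (1 / 2 : ℝ) 1,
          ‖SK a φ ψ z (Y / u) - SK a φ ψ z (t i * 4 ^ j / u)‖ ≤ ε := by
        intro u hu
        rw [Set.uIoc_of_le (by norm_num)] at hu
        have hu0 : 0 < u := by linarith [hu.1]
        have hYY : t i * 4 ^ j ≤ Y := by
          rw [hYs]
          exact mul_le_mul_of_nonneg_right hts hp.le
        refine (hlip _ _ (div_pos hYi hu0) (div_le_div_of_nonneg_right hYY hu0.le)).trans ?_
        refine le_trans ?_ hCR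
        have h1 : C * (Y / u - t i * 4 ^ j / u) / (t i * 4 ^ j / u) = C * (s - t i) / t i := by
          rw [hYs]
          field_simp
        rw [h1]
        have h2 : C * (s - t i) / t i ≤ C * (s - t i) :=
          div_le_self (mul_nonneg hC (by linarith)) (ht1 i)
        have h3 : C * (s - t i) ≤ C * (3 / R) := mul_le_mul_of_nonneg_left (by linarith) hC
        have h4 : C * (3 / R) = 3 * C / R := by ring
        linarith
      refine (intervalIntegral.norm_integral_le_of_norm_le_const hbd).trans ?_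
      have h5 : |(1 : ℝ) - 1 / 2| = 1 / 2 := by norm_num
      rw [h5]
      linarith
    have hA : ‖MK a φ ψ z (t i * 4 ^ j)‖ ≤ ∑ i ∈ range (R + 1), ‖MK a φ ψ z (t i * 4 ^ j)‖ :=
      single_le_sum (f := fun i => ‖MK a φ ψ z (t i * 4 ^ j)‖) (fun i _ => norm_nonneg _) hiR
    have h6 : ‖MK a φ ψ z Y‖ ≤ ‖MK a φ ψ z Y - MK a φ ψ z (t i * 4 ^ j)‖ +
        ‖MK a φ ψ z (t i * 4 ^ j)‖ := by
      have := norm_add_le (MK a φ ψ z Y - MK a φ ψ z (t i * 4 ^ j)) (MK a φ ψ z (t i * 4 ^ j))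
      rwa [sub_add_cancel] at this
    show ‖MK a φ ψ z Y‖ ≤ (∑ i ∈ range (R + 1), ‖MK a φ ψ z (t i * 4 ^ j)‖) + ε
    linarith

end Pool.Agent.Lib.MP_d57abb_nt.GA.AS
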