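import Pool.Agent.Lib.MP_d57abb_nt.GA.AS.Smooth
import Pool.Agent.Lib.MP_d57abb_nt.GA.TS.ThinN

/-!
# the sharp cutoff, natural scale

`TZ/Sharp.lean` is the model (copy the private lemmas `Sharp_tz`, `Sharp_one`, `Sharp_zero`, `Sharp_nn`, `Sharp_le`, `Sharp_lip`, `Sharp_pw`, `Sharp_pt`, renamed `ShN_..`).
Let `ψ = ShN_tz c η`, `PW ψ k₀ (1/η)`, `C, C'` from `TS.thinN` with `κ = c`, `0 < η ≤ (c - 1/c)/3` and `2 C η ≤ ε/4`.  For `X ≥ 1` (`‖z‖ = 1` as `z^q = 1`)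
`‖∑_{k ≤ X} tc c k z^om - Sm ψ z X‖ ≤ ∑_{k ≤ X} |tc c k - tp ψ k| ≤ ∑_{k ≤ X} (wn (1/c) (1/c + η) k + wn (c - η) c k) ≤ 2 (C η X + C' √X)`
(`Sm ψ z (X : ℝ)` is the sum over `Icc 1 X` by `Nat.floor_natCast`; `tp ψ k = ∑ d ∈ (ff k).divisors, ψ (d / k)`; `Sharp_pt`).  For `X ≥ X₀`: `2 C' √X ≤ (ε / 4) X`.  So for `X ≥ X₀` with `ε < ‖∑ tc c k z^om‖ / X`:
`ε / 2 < ‖Sm ψ z X‖ / X`.  Conclude with `LN.mono (LN.union (smooth hq hz hz1 hpw (ε/2 > 0)) (LN_of_finite X₀ (P := fun X => X < X₀) ..))`.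
-/

namespace Pool.Agent.Lib.MP_d57abb_nt.GA.AS

variable [Pool.Agent.Lib.MP_d57abb_nt.GA.TA.Lab]

open Finset Filter Topology Pool.Agent.Lib.MP_d57abb_nt Pool.Agent.Lib.MP_d57abb_nt.GA.TA Pool.Agent.Lib.MP_d57abb_nt.GA.TZ Pool.Agent.Lib.MP_d57abb_nt.GA.TS

private noncomputable def ShN_tz (c η x : ℝ) : ℝ :=
  max 0 (min 1 (min ((x - 1 / c) / η) ((c - x) / η)))

private theorem ShN_one {c η x : ℝ} (hη : 0 < η) (h1 : 1 / c + η ≤ x) (h2 : x ≤ c - η) :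
    ShN_tz c η x = 1 := by
  unfold ShN_tz
  have h3 : 1 ≤ (x - 1 / c) / η := by
    rw [le_div_iff₀ hη]
    linarith
  have h4 : 1 ≤ (c - x) / η := by
    rw [le_div_iff₀ hη]
    linarith
  rw [min_eq_left (le_min h3 h4), max_eq_right zero_le_one]

private theorem ShN_zero {c η x : ℝ} (hη : 0 < η) (h : x ≤ 1 / c ∨ c ≤ x) :
    ShN_tz c η x = 0 := by
  unfold ShN_tz
  apply max_eq_left
  apply (min_le_right _ _).trans
  rcases h with h | h
  · exact (min_le_left _ _).trans (div_nonpos_of_nonpos_of_nonneg (by linarith) hη.le)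
  · exact (min_le_right _ _).trans (div_nonpos_of_nonpos_of_nonneg (by linarith) hη.le)

private theorem ShN_nn (c η x : ℝ) : 0 ≤ ShN_tz c η x := le_max_left _ _

private theorem ShN_le (c η x : ℝ) : ShN_tz c η x ≤ 1 :=
  max_le zero_le_one (min_le_left _ _)

private theorem ShN_lip {c η : ℝ} (hη : 0 < η) (x y : ℝ) :
    |ShN_tz c η x - ShN_tz c η y| ≤ 1 / η * |x - y| := by
  have e1 : |(x - 1 / c) / η - (y - 1 / c) / η| = 1 / η * |x - y| := by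
    rw [← sub_div, sub_sub_sub_cancel_right, abs_div, abs_of_pos hη]
    ring
  have e2 : |(c - x) / η - (c - y) / η| = 1 / η * |x - y| := by
    rw [← sub_div, sub_sub_sub_cancel_left, abs_div, abs_of_pos hη, abs_sub_comm]
    ring
  have h0 : 0 ≤ 1 / η * |x - y| := by positivity
  unfold ShN_tz
  refine (abs_max_sub_max_le_max _ _ _ _).trans (max_le ?_ ?_)
  · rw [sub_self, abs_zero]
    exact h0
  · refine (abs_min_sub_min_le_max _ _ _ _).trans (max_le ?_ ?_)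
    · rw [sub_self, abs_zero]
      exact h0
    · exact (abs_min_sub_min_le_max _ _ _ _).trans (max_le e1.le e2.le)

private theorem ShN_pw {c η : ℝ} (hc : 1 < c) (hη : 0 < η) :
    ∃ k : ℕ, PW (ShN_tz c η) k (1 / η) := by
  obtain ⟨k, hk⟩ := pow_unbounded_of_one_lt c (by norm_num : (1 : ℝ) < 2)
  refine ⟨k, ⟨ShN_nn c η, ShN_le c η, fun x hx => ?_, ShN_lip hη⟩⟩
  have h1 : 1 / c < x := by
    by_contra h
    exact hx (ShN_zero hη (Or.inl (not_lt.1 h)))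
  have h2 : x < c := by
    by_contra h
    exact hx (ShN_zero hη (Or.inr (not_lt.1 h)))
  have h3 : (1 : ℝ) / 2 ^ k ≤ 1 / c := one_div_le_one_div_of_le (by linarith) hk.le
  exact ⟨by linarith, by linarith⟩

open Classical in
private theorem ShN_pt {c η : ℝ} (hc : 1 < c) (hη : 0 < η) {k : ℕ} (hk : 1 ≤ k) (d : ℕ) :
    |(if (k : ℝ) ≤ c * d ∧ (d : ℝ) ≤ c * k then (1 : ℝ) else 0) - ShN_tz c η ((d : ℝ) / k)| ≤
      (if 1 / c * k ≤ (d : ℝ) ∧ (d : ℝ) ≤ (1 / c + η) * k then (1 : ℝ) else 0) +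
        (if (c - η) * k ≤ (d : ℝ) ∧ (d : ℝ) ≤ c * k then (1 : ℝ) else 0) := by
  have hk0 : (0 : ℝ) < (k : ℝ) := by exact_mod_cast hk
  have hc0 : 0 < c := by linarith
  have hA : (0 : ℝ) ≤ (if 1 / c * k ≤ (d : ℝ) ∧ (d : ℝ) ≤ (1 / c + η) * k then (1 : ℝ) else 0) := by
    split_ifs <;> norm_num
  have hB : (0 : ℝ) ≤ (if (c - η) * k ≤ (d : ℝ) ∧ (d : ℝ) ≤ c * k then (1 : ℝ) else 0) := by
    split_ifs <;> norm_num
  have hx : (d : ℝ) = (d : ℝ) / k * k := by field_simp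
  by_cases hS : (k : ℝ) ≤ c * d ∧ (d : ℝ) ≤ c * k
  · rw [if_pos hS]
    have h1 : 1 / c * k ≤ (d : ℝ) := by
      rw [one_div, inv_mul_le_iff₀ hc0]
      exact hS.1
    by_cases h2 : (d : ℝ) ≤ (1 / c + η) * k
    · rw [if_pos ⟨h1, h2⟩, abs_of_nonneg (by linarith [ShN_le c η ((d : ℝ) / k)])]
      linarith [ShN_nn c η ((d : ℝ) / k)]
    · by_cases h3 : (c - η) * k ≤ (d : ℝ)
      · rw [if_neg (fun h => h2 h.2), if_pos ⟨h3, hS.2⟩, abs_of_nonneg (by linarith [ShN_le c η ((d : ℝ) / k)])]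
        linarith [ShN_nn c η ((d : ℝ) / k)]
      · have h4 : ShN_tz c η ((d : ℝ) / k) = 1 := by
          apply ShN_one hη
          · rw [le_div_iff₀ hk0]
            exact (not_le.1 h2).le
          · rw [div_le_iff₀ hk0]
            exact (not_le.1 h3).le
        rw [h4, sub_self, abs_zero]
        linarith
  · rw [if_neg hS]
    have h4 : ShN_tz c η ((d : ℝ) / k) = 0 := by
      apply ShN_zero hη
      by_cases h5 : (k : ℝ) ≤ c * d
      · right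
        rw [le_div_iff₀ hk0]
        exact (not_le.1 fun h6 => hS ⟨h5, h6⟩).le
      · left
        rw [div_le_iff₀ hk0, one_div, ← div_eq_inv_mul, le_div_iff₀ hc0]
        linarith
    rw [h4, sub_self, abs_zero]
    linarith

open Classical in
private theorem ShN_diff {c η : ℝ} (hc : 1 < c) (hη : 0 < η) {z : ℂ} (hz : ‖z‖ = 1) (X : ℕ) :
    ‖∑ k ∈ Icc 1 X, (tc c k : ℂ) * z ^ om k - Sm (ShN_tz c η) z (X : ℝ)‖ ≤
      ∑ k ∈ Icc 1 X, (wn (1 / c) (1 / c + η) k : ℝ) + ∑ k ∈ Icc 1 X, (wn (c - η) c k : ℝ) := by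
  unfold Sm
  rw [Nat.floor_natCast, ← Finset.sum_sub_distrib, ← Finset.sum_add_distrib]
  refine (norm_sum_le _ _).trans (Finset.sum_le_sum fun k hk => ?_)
  have hk1 : 1 ≤ k := (Finset.mem_Icc.1 hk).1
  have e1 : (tc c k : ℝ) = ∑ d ∈ (ff k).divisors,
      (if (k : ℝ) ≤ c * d ∧ (d : ℝ) ≤ c * k then (1 : ℝ) else 0) := by
    unfold tc
    rw [Finset.sum_boole]
  have e2 : (tc c k : ℂ) = (((tc c k : ℝ)) : ℂ) := by
    rw [Complex.ofReal_natCast]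
  rw [← sub_mul, norm_mul, norm_pow, hz, one_pow, mul_one, e2, ← Complex.ofReal_sub,
    Complex.norm_real, Real.norm_eq_abs, e1]
  unfold tp wn
  rw [← Finset.sum_sub_distrib, ← Finset.sum_boole, ← Finset.sum_boole,
    ← Finset.sum_add_distrib]
  exact (Finset.abs_sum_le_sum_abs _ _).trans
    (Finset.sum_le_sum fun d _ => ShN_pt hc hη hk1 d)

theorem shN {q : ℕ} (hq : 1 ≤ q) {z : ℂ} (hz : z ^ q = 1) (hz1 : OkN z) {c : ℝ} (hc : 1 < c) {ε : ℝ}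
    (hε : 0 < ε) : LN (fun X => ε < ‖∑ k ∈ Icc 1 X, (tc c k : ℂ) * z ^ om k‖ / X) := by
  have hn : ‖z‖ = 1 := Complex.norm_eq_one_of_pow_eq_one hz (by omega)
  obtain ⟨C, C', hC0, hC'0, hthin⟩ := thinN c hc.le
  have hc0 : 0 < c := by linarith
  have hcc : 0 < c - 1 / c := by
    have h1 : 1 / c < 1 := by
      rw [div_lt_one hc0]
      exact hc
    linarith
  have hη0 : 0 < min ((c - 1 / c) / 3) (ε / (8 * (C + 1))) := lt_min (by linarith) (by positivity)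
  generalize hηd : min ((c - 1 / c) / 3) (ε / (8 * (C + 1))) = η at hη0
  have hη1 : η ≤ (c - 1 / c) / 3 := hηd ▸ min_le_left _ _
  have hη2 : η ≤ ε / (8 * (C + 1)) := hηd ▸ min_le_right _ _
  have hη3 : 2 * C * η ≤ ε / 4 := by
    have h1 : C * η ≤ C * (ε / (8 * (C + 1))) := mul_le_mul_of_nonneg_left hη2 hC0.le
    have h2 : C * (ε / (8 * (C + 1))) ≤ ε / 8 := by
      rw [mul_div_assoc', div_le_div_iff₀ (by positivity) (by norm_num)]
      nlinarith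
    linarith
  obtain ⟨k, hpw⟩ := ShN_pw hc hη0
  obtain ⟨X₀, hX₀⟩ := exists_nat_ge ((8 * C' / ε) ^ 2)
  refine LN.mono (LN.union (smooth hq hz hz1 hpw (half_pos hε))
    (LN_of_finite X₀ (P := fun X => X < X₀) (fun X h1 h2 => by omega))) ?_
  intro X hX1 hX2
  by_cases hX3 : X < X₀
  · exact Or.inr hX3
  left
  have hX0 : (0 : ℝ) < X := by exact_mod_cast hX1
  rw [lt_div_iff₀ hX0] at hX2 ⊢
  have hd := ShN_diff hc hη0 hn X
  have ht1 := hthin (1 / c) (1 / c + η) le_rfl (by linarith) (by linarith) X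
  have ht2 := hthin (c - η) c (by linarith) (by linarith) le_rfl X
  have h5 := norm_add_le (∑ k ∈ Icc 1 X, (tc c k : ℂ) * z ^ om k - Sm (ShN_tz c η) z (X : ℝ))
    (Sm (ShN_tz c η) z (X : ℝ))
  rw [sub_add_cancel] at h5
  have h6 : 2 * C * η * X ≤ ε / 4 * X := mul_le_mul_of_nonneg_right hη3 hX0.le
  have h7 : 2 * C' * √X ≤ ε / 4 * X := by
    have h8 : (8 * C' / ε) ^ 2 ≤ (X : ℝ) := hX₀.trans (by exact_mod_cast not_lt.1 hX3)
    have h9 : 8 * C' / ε ≤ √X := Real.le_sqrt_of_sq_le h8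
    rw [div_le_iff₀ hε] at h9
    have h10 : √(X : ℝ) * √X = X := Real.mul_self_sqrt hX0.le
    have h11 : 8 * C' * √X ≤ √X * ε * √X := mul_le_mul_of_nonneg_right h9 (Real.sqrt_nonneg _)
    have h12 : √(X : ℝ) * ε * √X = ε * X := by
      calc √(X : ℝ) * ε * √X = ε * (√X * √X) := by ring
        _ = ε * X := by rw [h10]
    linarith
  nlinarith

end Pool.Agent.Lib.MP_d57abb_nt.GA.AS
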