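import Pool.Agent.Lib.MP_d57abb_nt.GA.AS.WK
import Pool.Agent.Lib.MP_d57abb_nt.GA.AS.MSg
import Pool.Agent.Lib.MP_d57abb_nt.GA.TA.Ker
import Pool.Agent.Lib.MP_d57abb_nt.GA.TA.MCell
import Pool.Agent.Lib.MP_d57abb_nt.GA.TA.Decouple
import Pool.Agent.Lib.MP_d57abb_nt.GA.TA.PLB

/-!
# One product weight at one scale

`P = PP e ρ`, `s = |PS P|`, `j = i + (ρ - γ)`: `(1/s) ∑_p p GP p = (1/s) ∑_p (p GP p - TC p) + [(1/s) ∑_p TC p - ∑_{b, l} (τ b l/P) ∑_{m ∈ cell} TC m]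
+ ∑_{b, l} (τ b l/P) ∑_{m ∈ cell} (TC m - Bm m) + ∑_{b, l} (τ b l/P) ∑_{m ∈ cell} Bm m`; the four terms are at most `ε₁ (1 + MI ρ / (δ 4^ρ))`, `ε₁`, `4 C ε₁`, `ε₁`.
-/

namespace Pool.Agent.Lib.MP_d57abb_nt.GA.AS

variable [Pool.Agent.Lib.MP_d57abb_nt.GA.TA.Lab]

open Finset Pool.Agent.Lib.MP_d57abb_nt Pool.Agent.Lib.MP_d57abb_nt.GA.TA Pool.Agent.Lib.MP_d57abb_nt.GA.TZ

private theorem Single_mean {ι : Type*} (S : Finset ι) (f : ι → ℂ) {ε : ℝ} (hε : 0 ≤ ε)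
    (h : ‖∑ p ∈ S, f p‖ ≤ ε * S.card) : ‖(∑ p ∈ S, f p) / (S.card : ℂ)‖ ≤ ε := by
  rw [norm_div, Complex.norm_natCast]
  rcases Nat.eq_zero_or_pos S.card with h0 | h0
  · rw [h0, Nat.cast_zero, div_zero]
    exact hε
  · rw [div_le_iff₀ (by exact_mod_cast h0)]
    exact h

private theorem Single_mean' {ι : Type*} (S : Finset ι) (f : ι → ℂ) {ε : ℝ} (hε : 0 ≤ ε)
    (h : ∀ p ∈ S, ‖f p‖ ≤ ε) : ‖(∑ p ∈ S, f p) / (S.card : ℂ)‖ ≤ ε := by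
  refine Single_mean S f hε ?_
  refine (norm_sum_le _ _).trans ?_
  refine (Finset.sum_le_sum h).trans ?_
  rw [Finset.sum_const, nsmul_eq_mul, mul_comm]

theorem single {q : ℕ} (hq : 1 ≤ q) {z : ℂ} (hz : z ^ q = 1) (hz1 : MS.Ok z) {g : ℝ → ℝ} {Lg : ℝ}
    (hg0 : ∀ x, 0 ≤ g x ∧ g x ≤ 1) (hgl : ∀ x y, |g x - g y| ≤ Lg * |x - y|)
    {Wh : ℝ → ℝ → ℝ} {γ₀ : ℕ} {B L : ℝ} (hB : 0 ≤ B) (hL : 0 ≤ L) (hW : GW Wh (2 ^ γ₀) B L)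
    (hx : ∀ x y, Wh x y ≠ 0 → 1 / 2 ≤ x ∧ x ≤ 2) (hy : ∀ x y, Wh x y ≠ 0 → 1 / 2 ^ γ₀ ≤ y)
    {ε : ℝ} (hε : 0 < ε) :
    ∃ e₀ : ℕ, ∀ e : ℕ, e₀ ≤ e → ∃ δ : ℝ, 0 < δ ∧ ∃ ρ₀ : ℕ, ∀ ρ : ℕ, ρ₀ ≤ ρ → ∃ i₀ : ℕ, ∀ i : ℕ, i₀ ≤ i →
      ‖(∑ p ∈ PS (PP e ρ), (p : ℂ) * GP (fun v => g (mu1 v)) Wh z (γ₀ + 4) p (i + (ρ - (γ₀ + 4)))) /
          ((PS (PP e ρ)).card : ℂ)‖ ≤ ε * (1 + MI q e ρ (2 ^ i) * ρ / (δ * 4 ^ ρ)) := by
  classical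
  have hφ := tot_pos
  obtain ⟨H, hH⟩ : ∃ H : ℝ, H = 4 / (1 / Lab.C) := ⟨_, rfl⟩
  have hH0 : 0 < H := by rw [hH]; positivity
  obtain ⟨ε₁, hε₁'⟩ : ∃ ε₁ : ℝ, ε₁ = ε / (3 + H) := ⟨_, rfl⟩
  have hε₁ : 0 < ε₁ := by rw [hε₁']; positivity
  have hμ : GM (fun v => g (mu1 v)) := GM_comp hg0 hgl
  have hWγ : GW Wh (2 ^ (γ₀ + 4)) B L := hW.mono (pow_le_pow_right₀ (by norm_num) (by omega))
  obtain ⟨n₀, e₀, hdec⟩ := decouple hq hz hμ hB hL hW hx hε₁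
  obtain ⟨n₁, e₁, hmod⟩ := model_cells hq hz hμ (γ := γ₀ + 4) (by omega) hB hL hWγ hε₁
  obtain ⟨n, hn⟩ : ∃ n, n = n₀ + n₁ + 1 := ⟨_, rfl⟩
  refine ⟨e₀ + e₁, fun e he => ?_⟩
  obtain ⟨δ, hδ, ρ₀, hρ₀⟩ := hdec n (by omega) e (by omega)
  obtain ⟨ρ₁, hρ₁⟩ := hmod n (by omega) e (by omega)
  obtain ⟨w, Lk, Cτ, hw5, hLk, hCτ, ρ₂, hρ₂⟩ := ker_app hq hz hμ hB hL hWγ (n := n) (by omega) e hε₁
  obtain ⟨ε₂, hε₂'⟩ : ∃ ε₂ : ℝ, ε₂ = ε₁ / ((w.factorial : ℝ) * Lk * (Cτ + 1)) := ⟨_, rfl⟩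
  have hwf : (0 : ℝ) < (w.factorial : ℝ) := by exact_mod_cast w.factorial_pos
  have hLkr : (0 : ℝ) < (Lk : ℝ) := by exact_mod_cast hLk
  have hε₂ : 0 < ε₂ := by rw [hε₂']; positivity
  obtain ⟨ρ₃, hρ₃⟩ := model_small_g hq hz hz1 hg0 hgl hB hL hW hx hy (γ := γ₀ + 4) le_rfl
    w.factorial_pos e hε₂
  refine ⟨δ, hδ, ρ₀ + ρ₁ + ρ₂ + ρ₃, fun ρ hρ => ?_⟩
  obtain ⟨i₀, hi₀⟩ := hρ₀ ρ (by omega)
  obtain ⟨i₁, hi₁⟩ := hρ₁ ρ (by omega)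
  obtain ⟨τ, hτ1, hτ2, hτ3, hker⟩ := hρ₂ ρ (by omega)
  obtain ⟨j₁, hj₁⟩ := hρ₃ ρ (by omega)
  refine ⟨i₀ + i₁ + j₁, fun i hi => ?_⟩
  obtain ⟨P, hP⟩ : ∃ P, P = PP e ρ := ⟨_, rfl⟩
  rw [← hP] at hτ3
  have hPp : 0 < P := by
    rw [hP]
    unfold PP
    positivity
  have hPr : (0 : ℝ) < P := by exact_mod_cast hPp
  have hM := MI_nonneg q e ρ (2 ^ i)
  have hM' : 0 ≤ MI q e ρ (2 ^ i) * ρ / (δ * 4 ^ ρ) := by positivity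
  obtain ⟨F, hF⟩ : ∃ F : ℕ → ℂ, F = fun p : ℕ => (p : ℂ) * GP (fun v => g (mu1 v)) Wh z (γ₀ + 4) p
    (i + (ρ - (γ₀ + 4))) := ⟨_, rfl⟩
  obtain ⟨T, hT⟩ : ∃ T : ℕ → ℂ, T = fun p : ℕ => TC (fun v => g (mu1 v)) Wh z n (n * 2 ^ ρ) (2 ^ i)
      (i + (ρ - (γ₀ + 4))) p := ⟨_, rfl⟩
  obtain ⟨Bb, hBb⟩ : ∃ Bb : ℕ → ℂ, Bb = fun m : ℕ => Bm (fun v => g (mu1 v)) Wh z (γ₀ + 4) (i + (ρ - (γ₀ + 4))) m :=
    ⟨_, rfl⟩
  have h1 : ‖(∑ p ∈ PS P, (F p - T p)) / ((PS P).card : ℂ)‖ ≤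
      ε₁ * (1 + MI q e ρ (2 ^ i) * ρ / (δ * 4 ^ ρ)) := by
    rw [hF, hT, hP]
    exact Single_mean (PS (PP e ρ)) _ (by positivity) (hi₀ i (by omega))
  have h2 : ‖(∑ p ∈ PS P, T p) / ((PS P).card : ℂ) -
        ∑ b ∈ range w.factorial, ∑ l ∈ range Lk, ((τ b l / (P : ℕ) : ℝ) : ℂ) *
          ∑ m ∈ KC.cell w.factorial Lk P b l, T m‖ ≤ ε₁ := by
    rw [hT, hP]
    exact hker i
  have h3 : ∀ m : ℕ, P / 2 < m → m ≤ P → ‖T m - Bb m‖ ≤ ε₁ := by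
    intro m hm1 hm2
    rw [hT, hBb]
    rw [hP] at hm1 hm2
    exact hi₁ i (by omega) m (by omega) hm2
  have h4 : ∀ b lo hi : ℕ, P / 2 ≤ lo → hi ≤ P → ‖∑ m ∈ NC w.factorial b lo hi, Bb m‖ ≤ ε₂ * P := by
    intro b lo hi' hlo hhi
    rw [hBb]
    rw [hP] at hlo hhi ⊢
    exact hj₁ _ (by omega) b lo hi' hlo hhi
  have h5 : ∀ b ∈ range w.factorial, ∀ l ∈ range Lk,
      ‖((τ b l / (P : ℕ) : ℝ) : ℂ) * ∑ m ∈ KC.cell w.factorial Lk P b l, T m‖ ≤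
        ε₁ * (|τ b l| / (P : ℕ) * ((KC.cell w.factorial Lk P b l).card : ℝ)) + Cτ * ε₂ := by
    intro b _ l hl
    have hl' := mem_range.1 hl
    rcases lt_or_ge (2 * l) Lk with h | h
    · rw [hτ2 b l h, zero_div, Complex.ofReal_zero, zero_mul, norm_zero, abs_zero, zero_div, zero_mul, mul_zero,
        zero_add]
      positivity
    · have hlo : P / 2 ≤ l * P / Lk := by
        rw [Nat.le_div_iff_mul_le hLk]
        have e1 : P / 2 * 2 ≤ P := Nat.div_mul_le_self P 2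
        have e2 : P / 2 * Lk ≤ P / 2 * (2 * l) := Nat.mul_le_mul_left _ h
        calc P / 2 * Lk ≤ P / 2 * (2 * l) := e2
          _ = l * (P / 2 * 2) := by ring
          _ ≤ l * P := Nat.mul_le_mul_left _ e1
      have hhi : (l + 1) * P / Lk ≤ P := by
        refine Nat.div_le_of_le_mul ?_
        exact Nat.mul_le_mul_right _ (by omega)
      have e1 : ∑ m ∈ KC.cell w.factorial Lk P b l, T m = ∑ m ∈ KC.cell w.factorial Lk P b l, (T m - Bb m) +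
          ∑ m ∈ KC.cell w.factorial Lk P b l, Bb m := by
        rw [← Finset.sum_add_distrib]
        exact Finset.sum_congr rfl fun m _ => by ring
      have e2 : ‖∑ m ∈ KC.cell w.factorial Lk P b l, (T m - Bb m)‖ ≤
          ε₁ * ((KC.cell w.factorial Lk P b l).card : ℝ) := by
        have e3 : ∀ m ∈ KC.cell w.factorial Lk P b l, ‖T m - Bb m‖ ≤ ε₁ := by
          intro m hm
          obtain ⟨k1, k2⟩ := mem_Ioc.1 (mem_filter.1 hm).1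
          exact h3 m (lt_of_le_of_lt hlo k1) (k2.trans hhi)
        refine (norm_sum_le _ _).trans ((Finset.sum_le_sum e3).trans (le_of_eq ?_))
        rw [Finset.sum_const, nsmul_eq_mul]
        ring
      have e3 : ‖∑ m ∈ KC.cell w.factorial Lk P b l, Bb m‖ ≤ ε₂ * P := by
        rw [cell_eq]
        exact h4 b _ _ hlo hhi
      rw [e1, norm_mul, Complex.norm_real, Real.norm_eq_abs, abs_div, Nat.abs_cast]
      have e4 := (norm_add_le (∑ m ∈ KC.cell w.factorial Lk P b l, (T m - Bb m))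
        (∑ m ∈ KC.cell w.factorial Lk P b l, Bb m)).trans (add_le_add e2 e3)
      have e5 : 0 ≤ |τ b l| / (P : ℝ) := by positivity
      calc |τ b l| / (P : ℝ) * ‖∑ m ∈ KC.cell w.factorial Lk P b l, (T m - Bb m) +
            ∑ m ∈ KC.cell w.factorial Lk P b l, Bb m‖
          ≤ |τ b l| / (P : ℝ) * (ε₁ * ((KC.cell w.factorial Lk P b l).card : ℝ) + ε₂ * P) :=
            mul_le_mul_of_nonneg_left e4 e5
        _ = ε₁ * (|τ b l| / (P : ℝ) * ((KC.cell w.factorial Lk P b l).card : ℝ)) + |τ b l| * ε₂ := by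
            field_simp
        _ ≤ ε₁ * (|τ b l| / (P : ℝ) * ((KC.cell w.factorial Lk P b l).card : ℝ)) + Cτ * ε₂ :=
            add_le_add le_rfl (mul_le_mul_of_nonneg_right (hτ1 b l) hε₂.le)
  have h6 : ‖∑ b ∈ range w.factorial, ∑ l ∈ range Lk, ((τ b l / (P : ℕ) : ℝ) : ℂ) *
          ∑ m ∈ KC.cell w.factorial Lk P b l, T m‖ ≤ ε₁ * H + ε₁ := by
    have e1 : ‖∑ b ∈ range w.factorial, ∑ l ∈ range Lk, ((τ b l / (P : ℕ) : ℝ) : ℂ) *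
          ∑ m ∈ KC.cell w.factorial Lk P b l, T m‖ ≤ ∑ b ∈ range w.factorial, ∑ l ∈ range Lk,
          (ε₁ * (|τ b l| / (P : ℕ) * ((KC.cell w.factorial Lk P b l).card : ℝ)) + Cτ * ε₂) :=
      (norm_sum_le _ _).trans (Finset.sum_le_sum fun b hb =>
        (norm_sum_le _ _).trans (Finset.sum_le_sum fun l hl => h5 b hb l hl))
    refine e1.trans ?_
    have e2 : ∑ b ∈ range w.factorial, ∑ l ∈ range Lk,
          (ε₁ * (|τ b l| / (P : ℕ) * ((KC.cell w.factorial Lk P b l).card : ℝ)) + Cτ * ε₂) =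
        ε₁ * (∑ b ∈ range w.factorial, ∑ l ∈ range Lk, |τ b l| / (P : ℕ) *
          ((KC.cell w.factorial Lk P b l).card : ℝ)) + (w.factorial : ℝ) * (Lk * (Cτ * ε₂)) := by
      rw [Finset.mul_sum, Finset.sum_congr rfl fun b _ => Finset.sum_add_distrib, Finset.sum_add_distrib]
      congr 1
      · refine Finset.sum_congr rfl fun b _ => ?_
        rw [Finset.mul_sum]
      · rw [Finset.sum_const, Finset.sum_const, card_range, card_range, nsmul_eq_mul, nsmul_eq_mul]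
    rw [e2]
    refine add_le_add (mul_le_mul_of_nonneg_left (by rw [hH]; exact hτ3) hε₁.le) ?_
    have e3 : (w.factorial : ℝ) * (Lk * (Cτ * ε₂)) ≤ (w.factorial : ℝ) * (Lk * ((Cτ + 1) * ε₂)) := by
      gcongr
      linarith
    refine e3.trans (le_of_eq ?_)
    rw [hε₂']
    field_simp
  have h7 : (∑ p ∈ PS P, F p) / ((PS P).card : ℂ) = (∑ p ∈ PS P, (F p - T p)) / ((PS P).card : ℂ) +
      (((∑ p ∈ PS P, T p) / ((PS P).card : ℂ) -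
        ∑ b ∈ range w.factorial, ∑ l ∈ range Lk, ((τ b l / (P : ℕ) : ℝ) : ℂ) *
          ∑ m ∈ KC.cell w.factorial Lk P b l, T m) +
      ∑ b ∈ range w.factorial, ∑ l ∈ range Lk, ((τ b l / (P : ℕ) : ℝ) : ℂ) *
          ∑ m ∈ KC.cell w.factorial Lk P b l, T m) := by
    rw [Finset.sum_sub_distrib, sub_div]
    ring
  have h8 : ‖(∑ p ∈ PS P, F p) / ((PS P).card : ℂ)‖ ≤
      ε₁ * (1 + MI q e ρ (2 ^ i) * ρ / (δ * 4 ^ ρ)) + (ε₁ + (ε₁ * H + ε₁)) := by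
    rw [h7]
    exact (norm_add_le _ _).trans (add_le_add h1 ((norm_add_le _ _).trans (add_le_add h2 h6)))
  rw [hF, hP] at h8
  refine h8.trans ?_
  have h9 : ε = ε₁ * (3 + H) := by
    rw [hε₁']
    field_simp
  have h10 : 0 ≤ (2 + H) * (ε₁ * (MI q e ρ (2 ^ i) * ρ / (δ * 4 ^ ρ))) := by positivity
  rw [h9]
  have h11 : ε₁ * (3 + H) * (1 + MI q e ρ (2 ^ i) * ρ / (δ * 4 ^ ρ)) =
      ε₁ * (1 + MI q e ρ (2 ^ i) * ρ / (δ * 4 ^ ρ)) + (ε₁ + (ε₁ * H + ε₁)) +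
        (2 + H) * (ε₁ * (MI q e ρ (2 ^ i) * ρ / (δ * 4 ^ ρ))) := by ring
  rw [h11]
  linarith

end Pool.Agent.Lib.MP_d57abb_nt.GA.AS
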